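import Pool.Agent.Work.MP_223b32_FY.Interface

/-!
# Block CNT: balance of multiplicative relations (adapted from FF.GAL)
-/

namespace Pool.Agent.Work.FY

open Polynomial Finset Pool.Agent.Work.MP_223b32_ag_56 Pool.Agent.Work.FF Pool.Agent.Work.T3
open Pool.Agent.Work.FF.GALAux

/-- Lifting of a multiset. -/
theorem lift_multiset {A B : Type*} (f : A → B) (Q : A → Prop) (s : Multiset B)
    (h : ∀ b ∈ s, ∃ a, f a = b ∧ Q a) : ∃ s' : Multiset A, s'.map f = s ∧ ∀ a ∈ s', Q a := by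
  induction s using Multiset.induction_on with
  | empty => exact ⟨0, rfl, by simp⟩
  | cons b s ih =>
    obtain ⟨s', h3, h4⟩ := ih (fun y hy => h y (Multiset.mem_cons_of_mem hy))
    obtain ⟨a, ha, hQ⟩ := h b (Multiset.mem_cons_self _ _)
    refine ⟨a ::ₘ s', by rw [Multiset.map_cons, ha, h3], ?_⟩
    intro y hy
    rcases Multiset.mem_cons.1 hy with rfl | hy
    · exact hQ
    · exact h4 y hy

/-- The splitting field of a nonzero rational polynomial as a number field in `Type`. -/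
theorem exists_field (F : ℚ[X]) : ∃ (L : Type) (_ : Field L) (_ : NumberField L)
    (_ : IsGalois ℚ L), (F.map (algebraMap ℚ L)).Splits := by
  obtain ⟨L, _, _, hL⟩ : ∃ (L : Type) (_ : Field L) (_ : CharZero L), IsSplittingField ℚ L F := by
    obtain ⟨L, i1, i2, hL⟩ : ∃ (L : Type) (_ : Field L) (_ : Algebra ℚ L),
        IsSplittingField ℚ L F := ⟨F.SplittingField, _, _, IsSplittingField.splittingField _⟩
    have i3 : CharZero L := charZero_of_injective_algebraMap (algebraMap ℚ L).injective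
    refine ⟨L, i1, i3, ?_⟩
    obtain rfl : i2 = DivisionRing.toRatAlgebra := Subsingleton.elim _ _
    exact hL
  have hfin : FiniteDimensional ℚ L := IsSplittingField.finiteDimensional L F
  have hnf : NumberField L := ⟨⟩
  have hnorm : Normal ℚ L := Normal.of_isSplittingField F
  exact ⟨L, _, hnf, ⟨⟩, IsSplittingField.splits L F⟩

section

variable {L : Type} [Field L] [NumberField L] (toC : L →ₐ[ℚ] ℂ)

include toC in
theorem root_lift {G : ℚ[X]} (hG0 : G ≠ 0) (hG : (G.map (algebraMap ℚ L)).Splits) (y : ℂ)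
    (hy : aeval y G = 0) : ∃ x : L, toC x = y := by
  have h1 : y ∈ G.rootSet ℂ := mem_rootSet.2 ⟨hG0, hy⟩
  rw [← hG.image_rootSet toC] at h1
  obtain ⟨x, -, rfl⟩ := h1
  exact ⟨x, rfl⟩

theorem aeval_toC (x : L) (P : ℤ[X]) : aeval (toC x) P = toC (aeval x P) :=
  aeval_algHom_apply (toC.restrictScalars ℤ) x P

theorem toC_inj : Function.Injective toC := RingHom.injective _

theorem mem_lift {q : ℕ} (hq0 : q ≠ 0) {h : ℤ[X]} (hm : h.Monic)
    (hs : ((fpoly q h).map (algebraMap ℚ L)).Splits) (y : ℂ) (hy0 : y ≠ 0)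
    (hy : aeval (y + q / y) h = 0) : ∃ x : L, toC x = y ∧ x ≠ 0 ∧ aeval (x + q / x) h = 0 := by
  obtain ⟨x, rfl⟩ := root_lift toC (fpoly_ne_zero hq0 hm) hs y
    (by rw [aeval_fpoly q h hy0, hy, mul_zero])
  refine ⟨x, rfl, ?_, toC_inj toC ?_⟩
  · rintro rfl
    exact hy0 (map_zero toC)
  · rw [map_zero, ← hy, ← aeval_toC, map_add, map_div₀, map_natCast]

theorem sol_lift {q : ℕ} (hq0 : q ≠ 0) {h : ℤ[X]} (hm : h.Monic)
    (hs : ((fpoly q h).map (algebraMap ℚ L)).Splits) (τ : ℂ) (hτ : aeval τ h = 0) :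
    ∃ x : L, toC (x + q / x) = τ ∧ x ≠ 0 := by
  obtain ⟨y, hy⟩ : ∃ y : ℂ, y ^ 2 - τ * y + q = 0 := by
    obtain ⟨d, hd⟩ := IsAlgClosed.exists_pow_nat_eq (τ ^ 2 - 4 * q) (n := 2) (by norm_num)
    refine ⟨(τ + d) / 2, ?_⟩
    linear_combination (1 / 4 : ℂ) * hd
  have hy0 : y ≠ 0 := by
    rintro rfl
    apply hq0
    have : (q : ℂ) = 0 := by linear_combination hy
    exact_mod_cast this
  have hτy : τ = y + q / y := by
    field_simp
    linear_combination (-1 : ℂ) * hy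
  obtain ⟨x, hx, hx0, -⟩ := mem_lift toC hq0 hm hs y hy0 (by rw [← hτy]; exact hτ)
  refine ⟨x, ?_, hx0⟩
  rw [hτy, ← hx, map_add, map_div₀, map_natCast]

include toC in
theorem splits_h {q : ℕ} (hq0 : q ≠ 0) {h : ℤ[X]} (hm : h.Monic)
    (hs : ((fpoly q h).map (algebraMap ℚ L)).Splits) : (h.map (Int.castRingHom L)).Splits := by
  have e1 : (h.map (Int.castRingHom L)).map (toC : L →+* ℂ) = h.map (Int.castRingHom ℂ) := by
    rw [Polynomial.map_map]
    congr 1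
    exact Subsingleton.elim _ _
  refine Splits.of_splits_map_of_injective (i := (toC : L →+* ℂ)) (toC_inj toC)
    (by rw [e1]; exact IsAlgClosed.splits _) ?_
  intro τ hτ
  rw [e1, mem_roots (hm.map _).ne_zero, IsRoot.def, eval_map, ← algebraMap_int_eq,
    ← aeval_def] at hτ
  obtain ⟨x, hx, -⟩ := sol_lift toC hq0 hm hs τ hτ
  exact ⟨x + q / x, hx⟩

include toC in
theorem sol_h {q : ℕ} (hq0 : q ≠ 0) {h : ℤ[X]} (hm : h.Monic)
    (hs : ((fpoly q h).map (algebraMap ℚ L)).Splits) (t : L) (ht : aeval t h = 0) :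
    ∃ y : L, y ≠ 0 ∧ y + q / y = t := by
  have h1 : aeval (toC t) h = 0 := by rw [aeval_toC, ht, map_zero]
  obtain ⟨x, hx, hx0⟩ := sol_lift toC hq0 hm hs _ h1
  exact ⟨x, hx0, toC_inj toC hx⟩

theorem weil_lift {q : ℕ} (hq0 : q ≠ 0) {P : ℤ[X]} (hP : P.Monic)
    (hs : (P.map (Int.castRingHom L)).Splits) {a : ℕ}
    (hroots : ∀ z : ℂ, aeval z P = 0 → ‖z‖ ^ 2 = (q : ℝ) ^ a) (γ : ℂ) (hγ : aeval γ P = 0) :
    ∃ x : L, toC x = γ ∧ x ≠ 0 ∧ aeval x P = 0 := by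
  have h5 : aeval γ (P.map (Int.castRingHom ℚ)) = 0 := by
    rw [aeval_def, eval₂_map]
    have : (algebraMap ℚ ℂ).comp (Int.castRingHom ℚ) = algebraMap ℤ ℂ := Subsingleton.elim _ _
    rw [this]
    exact hγ
  have h6 : ((P.map (Int.castRingHom ℚ)).map (algebraMap ℚ L)).Splits := by
    rw [Polynomial.map_map]
    have : (algebraMap ℚ L).comp (Int.castRingHom ℚ) = Int.castRingHom L := Subsingleton.elim _ _
    rwa [this]
  obtain ⟨x, rfl⟩ := root_lift toC (hP.map _).ne_zero h6 γ h5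
  refine ⟨x, rfl, ?_, toC_inj toC ?_⟩
  · rintro rfl
    have h6 := hroots _ hγ
    rw [map_zero, norm_zero, zero_pow (by norm_num)] at h6
    exact (pow_ne_zero a (show (q : ℝ) ≠ 0 by exact_mod_cast hq0)) h6.symm
  · rw [map_zero, ← hγ, aeval_toC]

end

/-- The main step, in the field `L`. -/
theorem cnt_field (hREL : Stmt_REL) (hOVER : Stmt_OVER) {L : Type} [Field L] [NumberField L]
    [IsGalois ℚ L] (toC : L →ₐ[ℚ] ℂ) {q : ℕ} {h : ℤ[X]} (hq0 : q ≠ 0) (hm : h.Monic)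
    (hirr : Irreducible (h.map (Int.castRingHom ℚ))) (hdeg : 5 ≤ h.natDegree)
    (hsepall : SepAll q h) (h3c : ThreeCycles h)
    (hs : ((fpoly q h).map (algebraMap ℚ L)).Splits) (Ps : Finset ℤ[X])
    (hPs : ∀ P ∈ Ps, P.Monic ∧ P.natDegree < 2 * h.natDegree ∧
      (P.map (Int.castRingHom L)).Splits ∧
      ∃ a : ℕ, ∀ z : ℂ, aeval z P = 0 → ‖z‖ ^ 2 = (q : ℝ) ^ a)
    (t s : Multiset ℂ) (ht : ∀ γ ∈ t, ∃ P ∈ Ps, aeval γ P = 0)
    (hsr : ∀ z ∈ s, IsWeilRoot q h z) (n m : ℕ) (hn : 0 < n)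
    (hprod : t.prod * s.prod ^ n = (q : ℂ) ^ m) (z : ℂ) (hz : IsWeilRoot q h z) :
    s.count ((q : ℂ) / z) = s.count z := by
  classical
  have hinj := toC_inj toC
  have hsL := splits_h toC hq0 hm hs
  have hsolL := sol_h toC hq0 hm hs
  have hsep := hsepall L hsL hsolL
  obtain ⟨x, hxz, hx0, hx⟩ := mem_lift toC hq0 hm hs z hz.1 hz.2
  obtain ⟨s', hs1, hs2⟩ := lift_multiset toC (fun x : L => x ≠ 0 ∧ aeval (x + q / x) h = 0) s
    (fun y hy => mem_lift toC hq0 hm hs y (hsr y hy).1 (hsr y hy).2)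
  obtain ⟨t', ht1, ht2⟩ := lift_multiset toC (fun x : L => x ≠ 0 ∧ ∃ P ∈ Ps, aeval x P = 0) t
    (by
      intro γ hγ
      obtain ⟨P, hP, hγP⟩ := ht γ hγ
      obtain ⟨h1, -, h3, a, h4⟩ := hPs P hP
      obtain ⟨x, h5, h6, h7⟩ := weil_lift toC hq0 h1 h3 h4 γ hγP
      exact ⟨x, h5, h6, P, hP, h7⟩)
  have hprod' : t'.prod * s'.prod ^ n = (q : L) ^ m := by
    apply hinj
    rw [map_mul, map_pow, map_pow, map_natCast, map_multiset_prod, map_multiset_prod, hs1, ht1,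
      hprod]
  obtain ⟨τ, hτ1, hτ2, hτ3, hτ4⟩ := hOVER L q h hq0 hm hirr hdeg hsL hsolL hsep h3c Ps hPs x hx0 hx
  have hτt : τ t'.prod = t'.prod := by
    rw [map_multiset_prod]
    congr 1
    conv_rhs => rw [← Multiset.map_id t']
    refine Multiset.map_congr rfl fun y hy => ?_
    obtain ⟨-, P, hP, hyP⟩ := ht2 y hy
    exact hτ1 P hP y hyP
  have ht0 : t'.prod ≠ 0 := by
    rw [Ne, Multiset.prod_eq_zero_iff]
    intro h0
    exact (ht2 0 h0).1 rfl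
  have hs0 : s'.prod ≠ 0 := by
    rw [Ne, Multiset.prod_eq_zero_iff]
    intro h0
    exact (hs2 0 h0).1 rfl
  have hquot : (s'.prod / τ s'.prod) ^ n = 1 := by
    have h1 := congrArg τ hprod'
    rw [map_mul, map_pow, map_pow, map_natCast, hτt, ← hprod'] at h1
    have h2 := mul_left_cancel₀ ht0 h1
    rw [div_pow, h2]
    exact div_self (pow_ne_zero _ hs0)
  have key := hREL L q h hq0 hm hirr (by omega) hsL hsolL hsep τ x hτ2 hx0 hx hτ3
    hτ4 s' hs2 n hn hquot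
  have e1 : ((q : ℂ) / z) = toC (q / x) := by rw [map_div₀, map_natCast, hxz]
  rw [e1, ← hxz, ← hs1, Multiset.count_map_eq_count' _ _ hinj,
    Multiset.count_map_eq_count' _ _ hinj]
  exact key

/-- CNT -/
theorem stmt_CNT (hREL : Stmt_REL) (hOVER : Stmt_OVER) : Stmt_CNT := by
  classical
  intro q h hq1 hm hirr hdeg hsepall h3c t ht s hs n m hn hprod z hz
  have hq0 : q ≠ 0 := by omega
  -- the polynomials
  have hPex : ∀ γ : ℂ, ∃ P : ℤ[X], γ ∈ t → (P.Monic ∧ P.natDegree ≤ 2 * h.natDegree - 1 ∧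
      aeval γ P = 0 ∧ ∃ a : ℕ, ∀ z : ℂ, aeval z P = 0 → ‖z‖ ^ 2 = (q : ℝ) ^ a) := by
    intro γ
    by_cases hγ : γ ∈ t
    · obtain ⟨a, P, h1, h2, h3, h4⟩ := ht γ hγ
      exact ⟨P, fun _ => ⟨h1, h2, h3, a, h4⟩⟩
    · exact ⟨0, fun h0 => absurd h0 hγ⟩
  choose Pf hPf using hPex
  obtain ⟨Ps, hPs⟩ : ∃ Ps : Finset ℤ[X], Ps = (t.map Pf).toFinset := ⟨_, rfl⟩
  have hPsmem : ∀ P ∈ Ps, ∃ γ ∈ t, Pf γ = P := by
    intro P hP
    rw [hPs, Multiset.mem_toFinset, Multiset.mem_map] at hP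
    exact hP
  have hPmem : ∀ γ ∈ t, Pf γ ∈ Ps := by
    intro γ hγ
    rw [hPs, Multiset.mem_toFinset, Multiset.mem_map]
    exact ⟨γ, hγ, rfl⟩
  obtain ⟨F, hF⟩ : ∃ F : ℚ[X], F = fpoly q h * ∏ P ∈ Ps, P.map (Int.castRingHom ℚ) := ⟨_, rfl⟩
  have hfp : fpoly q h ≠ 0 := fpoly_ne_zero hq0 hm
  have hF0 : F ≠ 0 := by
    rw [hF]
    refine mul_ne_zero hfp (prod_ne_zero_iff.2 fun P hP => ?_)
    obtain ⟨γ, hγ, rfl⟩ := hPsmem P hP
    exact ((hPf γ hγ).1.map _).ne_zero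
  obtain ⟨L, _, _, _, hsplF⟩ := exists_field F
  have hspl : ∀ G : ℚ[X], G ∣ F → (G.map (algebraMap ℚ L)).Splits := fun G hG =>
    hsplF.of_dvd ((Polynomial.map_ne_zero_iff (algebraMap ℚ L).injective).2 hF0)
      (Polynomial.map_dvd _ hG)
  have hdvd2 : ∀ P ∈ Ps, P.map (Int.castRingHom ℚ) ∣ F := fun P hP => by
    rw [hF]
    exact Dvd.dvd.mul_left (dvd_prod_of_mem _ hP) _
  refine cnt_field hREL hOVER (IsAlgClosed.lift : L →ₐ[ℚ] ℂ) hq0 hm hirr hdeg hsepall h3c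
    (hspl _ (by rw [hF]; exact Dvd.intro _ rfl)) Ps ?_ t s ?_ hs n m hn hprod z hz
  · intro P hP
    obtain ⟨γ, hγ, rfl⟩ := hPsmem P hP
    obtain ⟨h1, h2, h3, a, h4⟩ := hPf γ hγ
    refine ⟨h1, by omega, ?_, a, h4⟩
    have h5 := hspl _ (hdvd2 _ hP)
    rw [Polynomial.map_map] at h5
    have : (algebraMap ℚ L).comp (Int.castRingHom ℚ) = Int.castRingHom L := Subsingleton.elim _ _
    rwa [this] at h5
  · intro γ hγ
    exact ⟨Pf γ, hPmem γ hγ, (hPf γ hγ).2.2.1⟩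

end Pool.Agent.Work.FY
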