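import Pool.Agent.Work.MP_223b32_FY.Interface2
import Pool.Agent.Work.MP_223b32_FY.CNT

/-!
# Block CNT2: balance of multiplicative relations, tuples
-/

namespace Pool.Agent.Work.FY

open Polynomial Finset Pool.Agent.Work.MP_223b32_ag_56 Pool.Agent.Work.FF Pool.Agent.Work.T3
open Pool.Agent.Work.FF.GALAux

theorem weilRoot_swap {q : ℕ} (hq : q ≠ 0) {h : ℤ[X]} {z : ℂ} (hz : IsWeilRoot q h z) :
    IsWeilRoot q h (q / z) := by
  have hqL : (q : ℂ) ≠ 0 := by exact_mod_cast hq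
  refine ⟨div_ne_zero hqL hz.1, ?_⟩
  rw [div_div_cancel₀ hqL, add_comm]
  exact hz.2

/-- The main step, in the field `L`. -/
theorem cnt_field2 (hREL : Stmt_REL) (hOVER : Stmt_OVER2) {L : Type} [Field L] [NumberField L]
    [IsGalois ℚ L] (toC : L →ₐ[ℚ] ℂ) {q : ℕ} {h : ℤ[X]} (hq0 : q ≠ 0) (hm : h.Monic)
    (hirr : Irreducible (h.map (Int.castRingHom ℚ))) (hdeg : 5 ≤ h.natDegree)
    (hsepall : SepAll q h) (h3c : ThreeCycles h)
    (hs : ((fpoly q h).map (algebraMap ℚ L)).Splits) (Ps : Finset ℤ[X])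
    (hPs : ∀ P ∈ Ps, P.Monic ∧ P.natDegree < 2 * h.natDegree ∧
      (P.map (Int.castRingHom L)).Splits ∧
      ∃ a : ℕ, ∀ z : ℂ, aeval z P = 0 → ‖z‖ ^ 2 = (q : ℝ) ^ a)
    (Hs : Finset ℤ[X]) (hHs : ∀ h' ∈ Hs, h'.Monic ∧ ((fpoly q h').map (algebraMap ℚ L)).Splits ∧
      ApartIn L q h h')
    (t s s₁ : Multiset ℂ) (ht : ∀ γ ∈ t, ∃ P ∈ Ps, aeval γ P = 0)
    (hsr : ∀ z ∈ s, IsWeilRoot q h z) (hsr₁ : ∀ z ∈ s₁, ∃ h' ∈ Hs, IsWeilRoot q h' z)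
    (n m : ℕ) (hn : 0 < n)
    (hprod : t.prod * (s + s₁).prod ^ n = (q : ℂ) ^ m) (z : ℂ) (hz : IsWeilRoot q h z) :
    s.count ((q : ℂ) / z) = s.count z := by
  classical
  have hinj := toC_inj toC
  have hsL := splits_h toC hq0 hm hs
  have hsolL := sol_h toC hq0 hm hs
  have hsep := hsepall L hsL hsolL
  obtain ⟨x, hxz, hx0, hx⟩ := mem_lift toC hq0 hm hs z hz.1 hz.2
  obtain ⟨s', hs1, hs2⟩ := lift_multiset toC (fun x : L => x ≠ 0 ∧ aeval (x + q / x) h = 0) s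
    (fun y hy => mem_lift toC hq0 hm hs y (hsr y hy).1 (hsr y hy).2)
  obtain ⟨u', hu1, hu2⟩ := lift_multiset toC
    (fun x : L => x ≠ 0 ∧ ∃ h' ∈ Hs, aeval (x + q / x) h' = 0) s₁ (by
      intro y hy
      obtain ⟨h', hh', hy'⟩ := hsr₁ y hy
      obtain ⟨x, h1, h2, h3⟩ := mem_lift toC hq0 (hHs h' hh').1 (hHs h' hh').2.1 y hy'.1 hy'.2
      exact ⟨x, h1, h2, h', hh', h3⟩)
  obtain ⟨t', ht1, ht2⟩ := lift_multiset toC (fun x : L => x ≠ 0 ∧ ∃ P ∈ Ps, aeval x P = 0) t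
    (by
      intro γ hγ
      obtain ⟨P, hP, hγP⟩ := ht γ hγ
      obtain ⟨h1, -, h3, a, h4⟩ := hPs P hP
      obtain ⟨x, h5, h6, h7⟩ := weil_lift toC hq0 h1 h3 h4 γ hγP
      exact ⟨x, h5, h6, P, hP, h7⟩)
  have hprod' : t'.prod * (s'.prod * u'.prod) ^ n = (q : L) ^ m := by
    apply hinj
    rw [map_mul, map_pow, map_pow, map_natCast, map_mul, map_multiset_prod, map_multiset_prod,
      map_multiset_prod, hs1, ht1, hu1, ← Multiset.prod_add, hprod]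
  obtain ⟨τ, hτ1, hτu, hτ2, hτ3, hτ4⟩ := hOVER L q h hq0 hm hirr hdeg hsL hsolL hsep h3c Ps hPs Hs
    (fun h' hh' => (hHs h' hh').2.2) x hx0 hx
  have hτt : τ t'.prod = t'.prod := by
    rw [map_multiset_prod]
    congr 1
    conv_rhs => rw [← Multiset.map_id t']
    refine Multiset.map_congr rfl fun y hy => ?_
    obtain ⟨-, P, hP, hyP⟩ := ht2 y hy
    exact hτ1 P hP y hyP
  have hτu' : τ u'.prod = u'.prod := by
    rw [map_multiset_prod]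
    congr 1
    conv_rhs => rw [← Multiset.map_id u']
    refine Multiset.map_congr rfl fun y hy => ?_
    obtain ⟨hy0, h', hh', hyh⟩ := hu2 y hy
    exact hτu h' hh' y hy0 hyh
  have ht0 : t'.prod ≠ 0 := by
    rw [Ne, Multiset.prod_eq_zero_iff]
    intro h0
    exact (ht2 0 h0).1 rfl
  have hs0 : s'.prod ≠ 0 := by
    rw [Ne, Multiset.prod_eq_zero_iff]
    intro h0
    exact (hs2 0 h0).1 rfl
  have hu0 : u'.prod ≠ 0 := by
    rw [Ne, Multiset.prod_eq_zero_iff]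
    intro h0
    exact (hu2 0 h0).1 rfl
  have hquot : (s'.prod / τ s'.prod) ^ n = 1 := by
    have h1 := congrArg τ hprod'
    rw [map_mul, map_pow, map_pow, map_natCast, hτt, map_mul, hτu', ← hprod'] at h1
    have h2 := mul_left_cancel₀ ht0 h1
    rw [mul_pow, mul_pow] at h2
    have h3 := mul_right_cancel₀ (pow_ne_zero n hu0) h2
    rw [div_pow, h3]
    exact div_self (pow_ne_zero _ hs0)
  have key := hREL L q h hq0 hm hirr (by omega) hsL hsolL hsep τ x hτ2 hx0 hx hτ3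
    hτ4 s' hs2 n hn hquot
  have e1 : ((q : ℂ) / z) = toC (q / x) := by rw [map_div₀, map_natCast, hxz]
  rw [e1, ← hxz, ← hs1, Multiset.count_map_eq_count' _ _ hinj,
    Multiset.count_map_eq_count' _ _ hinj]
  exact key

/-- CNT2 -/
theorem stmt_CNT2 (hREL : Stmt_REL) (hOVER : Stmt_OVER2) : Stmt_CNT2 := by
  classical
  intro q g r h hq1 hg hh hap t ht s hs n m hn hprod z hz
  have hq0 : q ≠ 0 := by omega
  obtain ⟨i₀, hz⟩ := hz
  have hgdeg : (h i₀).natDegree = g := (hh i₀).2.1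
  -- the polynomials
  have hPex : ∀ γ : ℂ, ∃ P : ℤ[X], γ ∈ t → (P.Monic ∧ P.natDegree ≤ 2 * g - 1 ∧
      aeval γ P = 0 ∧ ∃ a : ℕ, ∀ z : ℂ, aeval z P = 0 → ‖z‖ ^ 2 = (q : ℝ) ^ a) := by
    intro γ
    by_cases hγ : γ ∈ t
    · obtain ⟨a, P, h1, h2, h3, h4⟩ := ht γ hγ
      exact ⟨P, fun _ => ⟨h1, h2, h3, a, h4⟩⟩
    · exact ⟨0, fun h0 => absurd h0 hγ⟩
  choose Pf hPf using hPex
  obtain ⟨Ps, hPs⟩ : ∃ Ps : Finset ℤ[X], Ps = (t.map Pf).toFinset := ⟨_, rfl⟩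
  have hPsmem : ∀ P ∈ Ps, ∃ γ ∈ t, Pf γ = P := by
    intro P hP
    rw [hPs, Multiset.mem_toFinset, Multiset.mem_map] at hP
    exact hP
  have hPmem : ∀ γ ∈ t, Pf γ ∈ Ps := by
    intro γ hγ
    rw [hPs, Multiset.mem_toFinset, Multiset.mem_map]
    exact ⟨γ, hγ, rfl⟩
  obtain ⟨F, hF⟩ : ∃ F : ℚ[X], F = (∏ i, fpoly q (h i)) * ∏ P ∈ Ps, P.map (Int.castRingHom ℚ) :=
    ⟨_, rfl⟩
  have hF0 : F ≠ 0 := by
    rw [hF]
    refine mul_ne_zero (prod_ne_zero_iff.2 fun i _ => fpoly_ne_zero hq0 (hh i).1)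
      (prod_ne_zero_iff.2 fun P hP => ?_)
    obtain ⟨γ, hγ, rfl⟩ := hPsmem P hP
    exact ((hPf γ hγ).1.map _).ne_zero
  obtain ⟨L, _, _, _, hsplF⟩ := exists_field F
  have hspl : ∀ G : ℚ[X], G ∣ F → (G.map (algebraMap ℚ L)).Splits := fun G hG =>
    hsplF.of_dvd ((Polynomial.map_ne_zero_iff (algebraMap ℚ L).injective).2 hF0)
      (Polynomial.map_dvd _ hG)
  have hdvd1 : ∀ i, fpoly q (h i) ∣ F := fun i => by
    rw [hF]
    exact Dvd.dvd.mul_right (dvd_prod_of_mem _ (mem_univ i)) _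
  have hdvd2 : ∀ P ∈ Ps, P.map (Int.castRingHom ℚ) ∣ F := fun P hP => by
    rw [hF]
    exact Dvd.dvd.mul_left (dvd_prod_of_mem _ hP) _
  have hap' := hap L (fun i => splits_h (IsAlgClosed.lift : L →ₐ[ℚ] ℂ) hq0 (hh i).1
    (hspl _ (hdvd1 i)))
  set s₀ := s.filter (IsWeilRoot q (h i₀)) with hs₀
  set s₁ := s.filter (fun z => ¬ IsWeilRoot q (h i₀) z) with hs₁
  have hsum : s₀ + s₁ = s := Multiset.filter_add_not _ _
  have key := cnt_field2 hREL hOVER (IsAlgClosed.lift : L →ₐ[ℚ] ℂ) hq0 (hh i₀).1 (hh i₀).2.2.1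
    (by rw [hgdeg]; exact hg) (hh i₀).2.2.2.1 (hh i₀).2.2.2.2 (hspl _ (hdvd1 i₀)) Ps (by
      intro P hP
      obtain ⟨γ, hγ, rfl⟩ := hPsmem P hP
      obtain ⟨h1, h2, h3, a, h4⟩ := hPf γ hγ
      refine ⟨h1, by rw [hgdeg]; omega, ?_, a, h4⟩
      have h5 := hspl _ (hdvd2 _ hP)
      rw [Polynomial.map_map] at h5
      have : (algebraMap ℚ L).comp (Int.castRingHom ℚ) = Int.castRingHom L :=
        Subsingleton.elim _ _
      rwa [this] at h5) ((univ.filter fun j => j ≠ i₀).image h) (by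
      intro h' hh'
      obtain ⟨j, hj, rfl⟩ := mem_image.1 hh'
      rw [mem_filter] at hj
      exact ⟨(hh j).1, hspl _ (hdvd1 j), hap' i₀ j (Ne.symm hj.2)⟩) t s₀ s₁
    (fun γ hγ => ⟨Pf γ, hPmem γ hγ, (hPf γ hγ).2.2.1⟩)
    (fun z hz => (Multiset.mem_filter.1 hz).2) (by
      intro z hz
      obtain ⟨h1, h2⟩ := Multiset.mem_filter.1 hz
      obtain ⟨j, hj⟩ := hs z h1
      refine ⟨h j, mem_image.2 ⟨j, mem_filter.2 ⟨mem_univ _, ?_⟩, rfl⟩, hj⟩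
      rintro rfl
      exact h2 hj) n m hn (by rw [hsum]; exact hprod) z hz
  rw [hs₀, Multiset.count_filter_of_pos hz,
    Multiset.count_filter_of_pos (weilRoot_swap hq0 hz)] at key
  exact key

end Pool.Agent.Work.FY
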