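import Pool.Agent.Work.MP_223b32_FY.Interface

/-!
# Block REL: a flip over all the other data gives balance (adapted from FF.GAL)
-/

namespace Pool.Agent.Work.FY

open Polynomial Finset Pool.Agent.Work.MP_223b32_ag_56 Pool.Agent.Work.FF
open Pool.Agent.Work.FF.GALAux

/-- REL -/
theorem stmt_REL : Stmt_REL := by
  intro L _ _ _ _ q h hq hm hirr hdeg hs hsol hsep τ x hτ hx0 hx hτx hxne s hsm n hn hprod
  have hqL : (q : L) ≠ 0 := by exact_mod_cast hq
  -- the roots
  set R : Finset L := (h.map (Int.castRingHom L)).roots.toFinset with hRdef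
  have hmon : (h.map (Int.castRingHom L)).Monic := hm.map _
  have hR : ∀ r, r ∈ R ↔ aeval r h = 0 := by
    intro r
    rw [hRdef, Multiset.mem_toFinset, mem_roots hmon.ne_zero, IsRoot.def, eval_map,
      ← algebraMap_int_eq, ← aeval_def]
  have hcardR : 2 ≤ R.card := by
    have hsepa : (h.map (Int.castRingHom L)).Separable := by
      have h1 : (h.map (Int.castRingHom ℚ)).Separable := hirr.separable
      have h2 : (h.map (Int.castRingHom ℚ)).map (algebraMap ℚ L) = h.map (Int.castRingHom L) := by
        rw [Polynomial.map_map]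
        congr 1
        exact Subsingleton.elim _ _
      rw [← h2]
      exact h1.map
    have h3 : (h.map (Int.castRingHom L)).roots.Nodup := nodup_roots hsepa
    rw [hRdef, Multiset.toFinset_card_of_nodup h3, ← hs.natDegree_eq_card_roots,
      hm.natDegree_map]
    exact hdeg
  -- the choice
  have hex : ∀ r : L, ∃ y : L, r ∈ R → (y ≠ 0 ∧ y + q / y = r) := by
    intro r
    by_cases hr : r ∈ R
    · obtain ⟨y, hy⟩ := hsol r ((hR r).1 hr)
      exact ⟨y, fun _ => hy⟩
    · exact ⟨0, fun h0 => absurd h0 hr⟩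
  choose y hy using hex
  have hy0 : ∀ r ∈ R, y r ≠ 0 := fun r hr => (hy r hr).1
  have hyr : ∀ r ∈ R, y r + q / y r = r := fun r hr => (hy r hr).2
  -- a pair of roots
  obtain ⟨a, ha, b, hb, hab⟩ := one_lt_card.1 hcardR
  have hya : aeval (y a + q / y a) h = 0 := by rw [hyr a ha]; exact (hR a).1 ha
  have hyb : aeval (y b + q / y b) h = 0 := by rw [hyr b hb]; exact (hR b).1 hb
  obtain ⟨τ₀, hτ₀, hc⟩ := hsep (y a) (y b) (hy0 a ha) (hy0 b hb) hya hyb
    (by rw [hyr a ha, hyr b hb]; exact hab)
  have hpair : ∃ u v : L, u ≠ 0 ∧ v ≠ 0 ∧ aeval (u + q / u) h = 0 ∧ aeval (v + q / v) h = 0 ∧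
      τ₀ u = q / u ∧ u ≠ q / u ∧ τ₀ v = v := by
    rcases hc with ⟨h1, h2, h3⟩ | ⟨h1, h2, h3⟩
    · exact ⟨y a, y b, hy0 a ha, hy0 b hb, hya, hyb, h1, h2, h3⟩
    · exact ⟨y b, y a, hy0 b hb, hy0 a ha, hyb, hya, h2, h3, h1⟩
  obtain ⟨u, v, hu0, hv0, hu, hv, hτu, hune, hτv⟩ := hpair
  have hns : ∀ r ∈ R, ∀ N : ℕ, 0 < N → (y r ^ 2 / (q : L)) ^ N ≠ 1 := by
    intro r hr N hN
    exact not_unity_aux hq hm hirr (by omega) hu0 hv0 hu hv hτu hune hτv (hy0 r hr)
      (by rw [hyr r hr]; exact (hR r).1 hr) hN
  -- the exponents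
  let e : L → L → ℤ := fun a r => (if a = y r then 1 else 0) - (if a = q / y r then 1 else 0)
  have hor : ∀ r ∈ R, τ (y r) = y r ∨ τ (y r) = q / y r := by
    intro r hr
    apply two_sol (y r) (τ (y r)) (hy0 r hr) ((_root_.map_ne_zero τ).2 (hy0 r hr))
    rw [← map_sum', hyr r hr, hτ r ((hR r).1 hr)]
  set S : Finset L := R.filter (fun r => τ (y r) ≠ y r) with hS
  have hSmem : ∀ r, r ∈ S ↔ r ∈ R ∧ τ (y r) ≠ y r := fun r => by rw [hS, mem_filter]
  have hone : ∀ a : L, a ≠ 0 → aeval (a + q / a) h = 0 →
      a / τ a = ∏ r ∈ S, (y r ^ 2 / (q : L)) ^ e a r := by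
    intro a ha0 har
    have harR : a + q / a ∈ R := (hR _).2 har
    have hcase : a = y (a + q / a) ∨ a = q / y (a + q / a) :=
      two_sol _ a (hy0 _ harR) ha0 (hyr _ harR).symm
    have hother : ∀ r ∈ R, r ≠ a + q / a → e a r = 0 := by
      intro r hr hne
      have h1 : a ≠ y r := by
        intro h0
        apply hne
        rw [h0, hyr r hr]
      have h2 : a ≠ q / y r := by
        intro h0
        apply hne
        rw [h0, div_div_cancel₀ hqL, add_comm, hyr r hr]
      simp [e, h1, h2]
    by_cases hin : a + q / a ∈ S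
    · rw [prod_eq_single_of_mem (a + q / a) hin (fun r hr hne => by
        rw [hother r ((hSmem r).1 hr).1 hne, zpow_zero])]
      set t := a + q / a with ht
      have hyt := hy0 t harR
      have h4 : τ (y t) = q / y t := (hor t harR).resolve_left ((hSmem t).1 hin).2
      have h5 : y t ≠ q / y t := by
        intro h0
        exact ((hSmem t).1 hin).2 (by rw [h4]; exact h0.symm)
      rcases hcase with h3 | h3
      · have h6 : e a t = 1 := by
          simp only [e]
          rw [if_pos h3, if_neg (by rw [h3]; exact h5)]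
          norm_num
        rw [h6, zpow_one, h3, h4]
        field_simp
      · have h6 : e a t = -1 := by
          simp only [e]
          rw [if_neg (by rw [h3]; exact h5.symm), if_pos h3]
          norm_num
        rw [h6, zpow_neg, zpow_one, h3, map_div₀, map_natCast, h4]
        field_simp
    · have h1 : τ (y (a + q / a)) = y (a + q / a) := by
        by_contra h0
        exact hin ((hSmem _).2 ⟨harR, h0⟩)
      have h2 : τ a = a := by
        rcases hcase with h3 | h3
        · rw [h3, h1]
        · rw [h3, map_div₀, map_natCast, h1]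
      rw [h2, div_self ha0]
      symm
      apply prod_eq_one
      intro r hr
      rw [hother r ((hSmem r).1 hr).1 (by rintro rfl; exact hin hr), zpow_zero]
  have hmulti : ∀ s : Multiset L, (∀ z ∈ s, z ≠ 0 ∧ aeval (z + q / z) h = 0) →
      (s.map fun z => z / τ z).prod =
        ∏ r ∈ S, (y r ^ 2 / (q : L)) ^ ((s.count (y r) : ℤ) - s.count (q / y r)) := by
    intro s
    induction s using Multiset.induction_on with
    | empty => intro _; simp
    | cons a s ih =>
      intro hs'
      rw [Multiset.map_cons, Multiset.prod_cons,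
        ih (fun z hz => hs' z (Multiset.mem_cons_of_mem hz)),
        hone a (hs' a (Multiset.mem_cons_self _ _)).1 (hs' a (Multiset.mem_cons_self _ _)).2,
        ← prod_mul_distrib]
      apply prod_congr rfl
      intro r hr
      have hrR := ((hSmem r).1 hr).1
      rw [← zpow_add₀ (div_ne_zero (pow_ne_zero _ (hy0 r hrR)) hqL)]
      congr 1
      rw [Multiset.count_cons, Multiset.count_cons]
      simp only [e, eq_comm (a := y r), eq_comm (a := (q : L) / y r)]
      split_ifs <;> push_cast <;> ring
  have h1 := hmulti s hsm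
  have h2 : (s.map fun z => z / τ z).prod = s.prod / τ s.prod := by
    rw [Multiset.prod_map_div, Multiset.map_id', map_multiset_prod]
  have h3 : ((s.map fun z => z / τ z).prod) ^ n = 1 := by
    rw [h2, hprod]
  let m' : L → ℤ := fun r => if τ (y r) ≠ y r then (s.count (y r) : ℤ) - s.count (q / y r) else 0
  have h4 : (∏ r ∈ R, (y r ^ 2 / (q : L)) ^ m' r) ^ n = 1 := by
    rw [← h3, h1]
    congr 1
    rw [hS, prod_filter]
    apply prod_congr rfl
    intro r hr
    simp only [m']
    split_ifs <;> simp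
  have hxR : x + q / x ∈ R := (hR _).2 hx
  have h5 := relation hq R hR y hy0 hyr hns hsep _ m' le_rfl n hn h4 (x + q / x) hxR
  set t := x + q / x with ht
  have hcase : x = y t ∨ x = q / y t := two_sol _ x (hy0 _ hxR) hx0 (hyr _ hxR).symm
  have h6 : τ (y t) ≠ y t := by
    intro h0
    rcases hcase with h7 | h7
    · rw [← h7] at h0
      exact hxne (h0.symm.trans hτx)
    · have h8 : y t = q / x := by rw [h7, div_div_cancel₀ hqL]
      rw [h8, map_div₀, map_natCast, hτx, div_div_cancel₀ hqL] at h0
      exact hxne h0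
  simp only [m', if_pos h6] at h5
  rcases hcase with h7 | h7
  · rw [← h7] at h5
    omega
  · have h8 : q / x = y t := by rw [h7, div_div_cancel₀ hqL]
    rw [← h8, div_div_cancel₀ hqL] at h5
    omega


end Pool.Agent.Work.FY
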