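import Pool.Agent.Work.MP_223b32_FY.COMB
import Pool.Agent.Work.MP_223b32_FY.FROBJ
import Pool.Agent.Work.MP_223b32_FY.REL
import Pool.Agent.Work.MP_223b32_FY.CNT2
import Pool.Agent.Work.MP_223b32_FY.FLXP
import Pool.Agent.Work.MP_223b32_FY_helper87.PAIR
import Pool.Agent.Work.MP_223b32_FY_helper87.ARI2
import Pool.Agent.Work.MP_223b32_FY_helper24.COVER2
import Pool.Agent.Work.MP_223b32_FY_helper24.PERM
import Pool.Agent.Work.MP_223b32_FY_helper64.CUBE2
import Pool.Agent.Work.MP_223b32_FY_helper76.COVK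
import Pool.Agent.Work.MP_223b32_FY_helper45.GRP2
import Pool.Agent.Work.MP_223b32_FY_helper3.GRP
import Pool.Agent.Work.MP_223b32_FY_helper58.BOCH
import Pool.Agent.Work.MP_223b32_FY_helper79.TWO
import Pool.Agent.Work.MP_223b32_FY_helper44.LARGE2
import Pool.Agent.Work.MP_223b32_FY_helper17.ALT
import Pool.Agent.Work.MP_223b32_FY_helper17.LEG
import Pool.Agent.Work.MP_223b32_FY_helper17.LARGE1
import Pool.Agent.Work.MP_223b32_FY_helper17.TUP
import Pool.Agent.Work.MP_223b32_FY_helper50.OVER2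
import Pool.Agent.Work.MP_223b32_FY_helper50.JOIN
import Pool.Agent.Work.MP_223b32_tc.FLA

/-!
All blocks together.
-/
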