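import Pool.Agent.Work.MP_223b32_FY.Interface2

/-!
# Combination of the theorem on single varieties and the one on tuples
-/

namespace Pool.Agent.Work.FY

open Polynomial Finset Pool.Agent.Work.MP_223b32_ag_56

theorem comb (h1 : FF.Stmt_FINAL) (h2 : Stmt_TUP) :
    ∃ c > (0 : ℝ), ∃ Q₀ g₀ : ℕ, ∀ p a : ℕ, p.Prime → 0 < a → Q₀ ≤ p ^ a → ∀ g : ℕ, 1 ≤ g →
      (realWeil (p ^ a) g).Finite ∧
      (0 : ℝ) < (ordinary p (p ^ a) g).ncard ∧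
      ((MP_223b32_ag_56.exceptional (p ^ a) g).ncard : ℝ) ≤
        ((p : ℝ) ^ a) ^ (-(c * g)) * ((ordinary p (p ^ a) g).ncard : ℝ) ∧
      (g₀ ≤ g → ∀ I : Set ℤ[X], ordinary p (p ^ a) g ⊆ I → I ⊆ realWeil (p ^ a) g →
        ∀ r : ℕ, 1 ≤ r → ((exceptionalT (p ^ a) g r I).ncard : ℝ) ≤
          r ^ 2 * ((p : ℝ) ^ a) ^ (-(c * g)) * (I.ncard : ℝ) ^ r) := by
  obtain ⟨c₁, hc₁, Q₁, H1⟩ := h1
  obtain ⟨c₂, hc₂, Q₂, g₀, H2⟩ := h2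
  refine ⟨min c₁ c₂, lt_min hc₁ hc₂, max Q₁ Q₂, g₀, fun p a hp ha hQ g hg => ?_⟩
  have hq1 : (1 : ℝ) ≤ (p : ℝ) ^ a := by
    exact_mod_cast Nat.one_le_pow _ _ hp.pos
  have hmono : ∀ c : ℝ, min c₁ c₂ ≤ c →
      ((p : ℝ) ^ a) ^ (-(c * g)) ≤ ((p : ℝ) ^ a) ^ (-(min c₁ c₂ * g)) := by
    intro c hc
    refine Real.rpow_le_rpow_of_exponent_le hq1 (neg_le_neg ?_)
    have hg0 : (0 : ℝ) ≤ g := Nat.cast_nonneg g
    gcongr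
  obtain ⟨h3, h4⟩ := H1 p a hp ha ((le_max_left _ _).trans hQ) g hg
  refine ⟨realWeil_finite _, h3, h4.trans ?_, fun hgg I hI1 hI2 r hr => ?_⟩
  · exact mul_le_mul_of_nonneg_right (hmono _ (min_le_left _ _)) h3.le
  · refine (H2 p a hp ha ((le_max_right _ _).trans hQ) g hgg I hI1 hI2 r hr).trans ?_
    have := hmono _ (min_le_right c₁ c₂)
    gcongr

end Pool.Agent.Work.FY
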