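import Pool.Agent.Work.MP_223b32_FY.FINa

/-!
# Blocks GALR and FIN
-/

namespace Pool.Agent.Work.FY

open Polynomial Finset Pool.Agent.Work.MP_223b32_ag_56 Pool.Agent.Work.FF

/-- GALR -/
theorem stmt_GALR (hSEP : FF.Stmt_SEP) (hALT : Stmt_ALT) (hCNT : Stmt_CNT) (hFLX : Stmt_FLX) :
    Stmt_GALR := by
  intro q ℓ g k d₁ d₂ d₃ _ h hq h2 hqℓ hadm hm hdeg hirr hpat
  have hd : 5 ≤ h.natDegree := by
    obtain ⟨⟨h1, h3, h4, -, h5, h6, h7, h8, -⟩, -⟩ := hadm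
    omega
  refine hFLX q h hq ?_ (hCNT q h hq hm hirr hd ?_ ?_)
  · rintro z ⟨hz0, hz⟩ hzq
    have h1 : z + q / z = 2 * z := by
      rw [← hzq]
      field_simp
      ring
    rw [h1] at hz
    have h3 : minpoly ℚ (2 * z) = h.map (Int.castRingHom ℚ) := by
      refine (minpoly.eq_of_irreducible_of_monic hirr ?_ (hm.map _)).symm
      rw [aeval_def, eval₂_map]
      have : (algebraMap ℚ ℂ).comp (Int.castRingHom ℚ) = algebraMap ℤ ℂ := Subsingleton.elim _ _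
      rw [this]
      exact hz
    have h4 : minpoly ℚ (2 * z) ∣ (X ^ 2 - C (4 * (q : ℚ)) : ℚ[X]) := by
      apply minpoly.dvd
      simp only [map_sub, map_pow, aeval_X, aeval_C, map_mul, map_natCast, map_ofNat]
      rw [mul_pow, hzq]
      norm_num
    have h5 := natDegree_le_of_dvd h4 (X_pow_sub_C_ne_zero (by norm_num) _)
    rw [h3, hm.natDegree_map, natDegree_X_pow_sub_C] at h5
    omega
  · intro L _ _ _ hs hsol
    exact hSEP L q ℓ g k d₁ d₂ d₃ h h2 hqℓ hadm.1 hm hdeg hirr hs hsol hpat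
  · exact hALT q ℓ g k d₁ d₂ d₃ h h2 hqℓ hadm hm hdeg hirr hpat

/-- Large dimension, any property which follows from a pattern. -/
theorem large_dim {Φ : ℕ → ℤ[X] → Prop} (hC : Stmt_COVER) (hR : Stmt_RED) (hS : Stmt_CSIEVE)
    (hPr : Stmt_PRIMES) (hPa : Stmt_PATT) (hL : Stmt_LOWER) (hG : Gal Φ) (hA : Stmt_ARI) :
    ∃ G Q₀ : ℕ, ∀ p a : ℕ, p.Prime → 0 < a → Q₀ ≤ p ^ a → ∀ g : ℕ, G ≤ g →
      (0 : ℝ) < (ordinary p (p ^ a) g).ncard ∧
      ((Exc Φ (p ^ a) g).ncard : ℝ) ≤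
        ((p : ℝ) ^ a) ^ (-(1 / 160000 * (g : ℝ))) * ((ordinary p (p ^ a) g).ncard : ℝ) := by
  obtain ⟨M, hM⟩ : ∃ M : ℕ, M = 8000 := ⟨_, rfl⟩
  obtain ⟨G, Λ, hΛ, hlarge⟩ := largeX hC hR hS hPr hPa hL hG hA M hM
  have hM0 : (0 : ℝ) < 2 * M := by
    have : 0 < M := by omega
    positivity
  refine ⟨max G 1, ⌈Λ ^ (2 * M)⌉₊, fun p a hp ha hQ g hg => ?_⟩
  obtain ⟨q, hq⟩ : ∃ q : ℝ, q = ((p ^ a : ℕ) : ℝ) := ⟨_, rfl⟩
  have hqq : (p : ℝ) ^ a = q := by rw [hq]; push_cast; rfl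
  rw [hqq]
  have hq1 : (1 : ℝ) ≤ q := by
    rw [hq]
    exact_mod_cast Nat.one_le_pow _ _ hp.pos
  have hqpos : 0 < q := by linarith
  have hg0 : (0 : ℝ) ≤ g := Nat.cast_nonneg g
  obtain ⟨z, hz⟩ : ∃ z : ℝ, z = q ^ (1 / (2 * (M : ℝ))) := ⟨_, rfl⟩
  have hzpos : 0 < z := by rw [hz]; exact Real.rpow_pos_of_pos hqpos _
  have hzq : z ^ (2 * M) = q := by
    rw [hz, ← Real.rpow_natCast, ← Real.rpow_mul hqpos.le]
    push_cast
    rw [one_div, inv_mul_cancel₀ hM0.ne', Real.rpow_one]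
  have hΛq : Λ ^ (2 * M) ≤ q := by
    have h1 := Nat.le_ceil (Λ ^ (2 * M))
    have h2 : ((⌈Λ ^ (2 * M)⌉₊ : ℕ) : ℝ) ≤ q := by
      rw [hq]
      exact_mod_cast hQ
    linarith
  have hΛz : Λ ≤ z := by
    rw [← hzq] at hΛq
    exact le_of_pow_le_pow_left₀ (by omega) hzpos.le hΛq
  have hz1 : 1 ≤ z := by linarith
  obtain ⟨k, hgk, h1, h2⟩ := hlarge g ((le_max_left _ _).trans hg) z hΛz p a hp ha
    (by rw [← hq, hzq])
  have hg1 : 1 ≤ g := (le_max_right _ _).trans hg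
  refine ⟨h2, h1.trans ?_⟩
  refine mul_le_mul_of_nonneg_right ?_ h2.le
  have hk : 1 ≤ k := by omega
  have h3 : q ^ (-(1 / 160000 * (g : ℝ))) = z ^ (-((2 * M : ℝ) * (1 / 160000 * g))) := by
    rw [← hzq, ← Real.rpow_natCast z, ← Real.rpow_mul hzpos.le]
    push_cast
    congr 1
    ring
  have h4 : (2 * M : ℝ) * (1 / 160000 * g) ≤ ((100 * k : ℕ) : ℝ) := by
    have e1 : (M : ℝ) = 8000 := by rw [hM]; norm_num
    have e2 : (g : ℝ) ≤ 1000 * k := by exact_mod_cast hgk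
    rw [e1]
    push_cast
    calc (2 * 8000 : ℝ) * (1 / 160000 * g) ≤ (2 * 8000) * (1 / 160000 * (1000 * k)) := by gcongr
      _ = 100 * k := by ring
  have h5 : z ^ (-(((100 * k : ℕ) : ℝ))) ≤ q ^ (-(1 / 160000 * (g : ℝ))) := by
    rw [h3]
    exact Real.rpow_le_rpow_of_exponent_le hz1 (neg_le_neg h4)
  refine le_trans ?_ h5
  rw [Real.rpow_neg hzpos.le, Real.rpow_natCast, ← one_div,
    div_le_div_iff₀ (by positivity) (by positivity), one_mul]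
  have h6 : 2 ≤ z ^ (200 * k) := by
    calc (2 : ℝ) ≤ z := by linarith
      _ ≤ z ^ (200 * k) := le_self_pow₀ hz1 (by omega)
  calc 2 * z ^ (100 * k) ≤ z ^ (200 * k) * z ^ (100 * k) := by gcongr
    _ = z ^ (300 * k) := by rw [← pow_add]; congr 1; ring

/-- FIN -/
theorem stmt_FIN (hC : Stmt_COVER) (hR : Stmt_RED) (hS : Stmt_CSIEVE) (hPr : Stmt_PRIMES)
    (hPa : Stmt_PATT) (hL : Stmt_LOWER) (hG : FF.Stmt_GAL) (hGR : Stmt_GALR) (hA : Stmt_ARI) :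
    Stmt_FIN := by
  obtain ⟨G, Q₁, hlarge⟩ := large_dim (Φ := fun q h => TateProperty q h ∧ TateRel q h) hC hR hS
    hPr hPa hL (by
      intro q ℓ g k d₁ d₂ d₃ _ h hq h2 hqℓ hadm hm hdeg hirr hpat
      exact ⟨hG q ℓ g k d₁ d₂ d₃ h hq h2 hqℓ hadm.1 hm hdeg hirr hpat,
        hGR q ℓ g k d₁ d₂ d₃ h hq h2 hqℓ hadm hm hdeg hirr hpat⟩) hA
  choose! Qs hQs using small
  refine ⟨min (1 / 160000) (1 / (12 * ((G : ℝ) + 1))), by positivity,
    max (∑ g ∈ range (G + 1), Qs g) Q₁, G, fun p a hp ha hQ g hg => ?_⟩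
  have hQ1 : ∑ g ∈ range (G + 1), Qs g ≤ p ^ a := (le_max_left _ _).trans hQ
  have hQ2 : Q₁ ≤ p ^ a := (le_max_right _ _).trans hQ
  obtain ⟨c, hc⟩ : ∃ c : ℝ, c = min (1 / 160000) (1 / (12 * ((G : ℝ) + 1))) := ⟨_, rfl⟩
  rw [← hc]
  have hc1 : c ≤ 1 / 160000 := by rw [hc]; exact min_le_left _ _
  have hc2 : c ≤ 1 / (12 * ((G : ℝ) + 1)) := by rw [hc]; exact min_le_right _ _
  have hq1 : (1 : ℝ) ≤ (p : ℝ) ^ a := by
    exact_mod_cast Nat.one_le_pow _ _ hp.pos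
  have hg0 : (0 : ℝ) ≤ g := Nat.cast_nonneg g
  rcases Nat.lt_or_ge g G with hgG | hgG
  · have h1 : Qs g ≤ p ^ a := (single_le_sum (f := Qs) (fun _ _ => Nat.zero_le _)
      (mem_range.2 (by omega))).trans hQ1
    obtain ⟨h2, h3⟩ := hQs g hg p a hp ha h1
    refine ⟨h2, ?_⟩
    have hset : exceptional (p ^ a) g G = MP_223b32_ag_56.exceptional (p ^ a) g := by
      unfold exceptional MP_223b32_ag_56.exceptional
      ext h
      simp only [Set.mem_setOf_eq, and_congr_right_iff]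
      intro _
      have : ¬ G ≤ g := by omega
      simp [this]
    rw [hset]
    refine h3.trans ?_
    have hcast : ((p ^ a : ℕ) : ℝ) = (p : ℝ) ^ a := by push_cast; rfl
    rw [hcast]
    refine mul_le_mul_of_nonneg_right ?_ h2.le
    refine Real.rpow_le_rpow_of_exponent_le hq1 (neg_le_neg ?_)
    have h4 : (g : ℝ) ≤ G + 1 := by
      have : (g : ℝ) ≤ G := by exact_mod_cast hgG.le
      linarith
    calc c * g ≤ 1 / (12 * ((G : ℝ) + 1)) * (G + 1) := by gcongr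
      _ = 1 / 12 := by field_simp
  · obtain ⟨h2, h3⟩ := hlarge p a hp ha hQ2 g hgG
    refine ⟨h2, ?_⟩
    have hset : exceptional (p ^ a) g G ⊆
        Exc (fun q h => TateProperty q h ∧ TateRel q h) (p ^ a) g := by
      rintro h ⟨h4, h5⟩
      exact ⟨h4, fun h6 => h5 ⟨h6.1, fun _ => h6.2⟩⟩
    have h4 : ((exceptional (p ^ a) g G).ncard : ℝ) ≤
        ((Exc (fun q h => TateProperty q h ∧ TateRel q h) (p ^ a) g).ncard : ℝ) := by
      exact_mod_cast Set.ncard_le_ncard hset ((realWeil_finite _).subset fun h hh => hh.1)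
    refine h4.trans (h3.trans ?_)
    refine mul_le_mul_of_nonneg_right ?_ h2.le
    refine Real.rpow_le_rpow_of_exponent_le hq1 (neg_le_neg ?_)
    gcongr

end Pool.Agent.Work.FY
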