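import Pool.Agent.Work.MP_223b32_FY.Interface
import Pool.Agent.Work.MP_223b32_FF.FINAL

/-!
# Block FIN: the count, for an arbitrary property (adapted from FF.FINAL)
-/

namespace Pool.Agent.Work.FY

open Polynomial Finset Pool.Agent.Work.MP_223b32_ag_56 Pool.Agent.Work.FF

/-- The real Weil polynomials without the property. -/
def Exc (Φ : ℕ → ℤ[X] → Prop) (q g : ℕ) : Set ℤ[X] := {h ∈ realWeil q g | ¬ Φ q h}

/-- The property follows from a pattern. -/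
def Gal (Φ : ℕ → ℤ[X] → Prop) : Prop :=
  ∀ (q ℓ g k d₁ d₂ d₃ : ℕ) [Fact ℓ.Prime] (h : ℤ[X]), 1 < q → ℓ ≠ 2 → (q : ZMod ℓ) ≠ 0 →
    Adm2 g k d₁ d₂ d₃ → h.Monic → h.natDegree = g → Irreducible (h.map (Int.castRingHom ℚ)) →
    Pattern q ℓ d₁ d₂ d₃ (h.map (Int.castRingHom (ZMod ℓ))) → Φ q h

/-- Exceptions are reducible or have no good prime. -/
theorem exc_sub {Φ : ℕ → ℤ[X] → Prop} (hG : Gal Φ) {p a g k d₁ d₂ d₃ A Z : ℕ} (hp : p.Prime) (ha : 0 < a)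
    (hadm : Adm2 g k d₁ d₂ d₃) (hA : 3 ≤ A) :
    Exc Φ (p ^ a) g ⊆ {h ∈ realWeil (p ^ a) g | ¬ Irreducible (h.map (Int.castRingHom ℚ))} ∪
      (realWeil (p ^ a) g ∩ {h : ℤ[X] | ∀ ℓ ∈ (range (Z + 1)).filter
        (fun ℓ => ℓ.Prime ∧ A ≤ ℓ ∧ ℓ ≠ p), ¬ Pattern (p ^ a) ℓ d₁ d₂ d₃
          (h.map (Int.castRingHom (ZMod ℓ)))}) := by
  rintro h ⟨hh, hnt⟩
  by_cases hirr : Irreducible (h.map (Int.castRingHom ℚ))
  swap
  · exact Or.inl ⟨hh, hirr⟩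
  refine Or.inr ⟨hh, fun ℓ hℓ hpat => hnt ?_⟩
  obtain ⟨-, h1, h2, h3⟩ := mem_filter.1 hℓ
  have : Fact ℓ.Prime := ⟨h1⟩
  refine hG (p ^ a) ℓ g k d₁ d₂ d₃ h (Nat.one_lt_pow ha.ne' hp.one_lt) (by omega) ?_ hadm hh.1
    hh.2.1 hirr hpat
  rw [Ne, ZMod.natCast_eq_zero_iff]
  intro h5
  exact h3 ((Nat.prime_dvd_prime_iff_eq h1 hp).1 (h1.dvd_of_dvd_pow h5))

set_option maxHeartbeats 1000000 in
/-- Large dimension. -/
theorem largeX {Φ : ℕ → ℤ[X] → Prop} (hC : Stmt_COVER) (hR : Stmt_RED) (hS : Stmt_CSIEVE) (hPr : Stmt_PRIMES)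
    (hPa : Stmt_PATT) (hL : Stmt_LOWER) (hG : Gal Φ) (hA : Stmt_ARI) (M : ℕ)
    (hM : M = 8000) :
    ∃ G : ℕ, ∃ Λ : ℝ, 2 ≤ Λ ∧ ∀ g : ℕ, G ≤ g → ∀ z : ℝ, Λ ≤ z → ∀ p a : ℕ, p.Prime → 0 < a →
      ((p ^ a : ℕ) : ℝ) = z ^ (2 * M) → ∃ k : ℕ, g ≤ 1000 * k ∧
      ((Exc Φ (p ^ a) g).ncard : ℝ) ≤ 2 / z ^ (300 * k) * (ordinary p (p ^ a) g).ncard ∧
      (0 : ℝ) < (ordinary p (p ^ a) g).ncard := by
  obtain ⟨G₀, hG₀⟩ := hA
  obtain ⟨Z₀, hZ₀⟩ := hPr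
  obtain ⟨Λ₀, hΛ₀⟩ : ∃ Λ₀ : ℝ, Λ₀ = (10 ^ 13) ^ 10 := ⟨_, rfl⟩
  have hΛ₀1 : 6 ≤ Λ₀ := by rw [hΛ₀]; norm_num
  have hΛC : ∀ C : ℝ, 1 ≤ C → C ≤ 10 ^ 13 → C ^ 10 ≤ Λ₀ := by
    intro C h1 h2
    rw [hΛ₀]
    exact pow_le_pow_left₀ (by linarith) h2 10
  clear hΛ₀
  refine ⟨max G₀ 160000, max Λ₀ (2 * Z₀), ?_, fun g hg z hz p a hp ha hq => ?_⟩
  · exact le_trans (by linarith) (le_max_left _ _)
  obtain ⟨k, d₁, d₂, d₃, hadm, hgk⟩ := hG₀ g ((le_max_left _ _).trans hg)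
  have hadm1 := hadm.1
  have hg1 : 160000 ≤ g := (le_max_right _ _).trans hg
  refine ⟨k, hgk, ?_⟩
  have hk160 : 160 ≤ k := by omega
  have hkg : k ≤ g := by
    obtain ⟨h1, -, -, -, -, -, -, h2, -⟩ := hadm1
    omega
  have hg0 : 1 ≤ g := by omega
  have hzC : Λ₀ ≤ z := (le_max_left _ _).trans hz
  have hzZ : 2 * (Z₀ : ℝ) ≤ z := (le_max_right _ _).trans hz
  have hz1 : (1 : ℝ) ≤ z := by linarith
  have hzpos : 0 < z := by linarith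
  have hg1' : (1 : ℝ) ≤ g := by exact_mod_cast hg0
  have hCg : ∀ C : ℝ, 1 ≤ C → C ≤ 10 ^ 13 → C ^ g ≤ z ^ (100 * k) := fun C h1 h2 =>
    pow_le_pow_aux h1 ((hΛC C h1 h2).trans hzC) hgk
  have hM1 : 2 * M ≤ 100 * k := by rw [hM]; omega
  have hM2 : 100 * k + 2 * M + 300 * k ≤ M * (g - 1) := by rw [hM]; omega
  have hMk : (z ^ M) ^ k = (z ^ (1000 * k)) ^ 8 := by
    rw [← pow_mul, ← pow_mul, hM]
    congr 1
    ring
  obtain ⟨x, hx⟩ : ∃ x : ℝ, x = z ^ (500 * k) := ⟨_, rfl⟩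
  obtain ⟨y, hy⟩ : ∃ y : ℝ, y = z ^ (1000 * k) := ⟨_, rfl⟩
  have hxy : x ^ 2 = y := by rw [hx, hy, ← pow_mul]; congr 1; ring
  have hx1 : 1 ≤ x := by rw [hx]; exact one_le_pow₀ hz1
  have hyz : z ≤ y := by rw [hy]; exact le_self_pow₀ hz1 (by omega)
  have hyk : z ^ (100 * k) ≤ y := by rw [hy]; exact pow_le_pow_right₀ hz1 (by omega)
  obtain ⟨Z, R, ρ, hRnat, hR1, hρ0, hρ1, hZρ, h2ρ, hZy, hA2, hZZ₀, hZ3⟩ :=
    params (g := g) (k := k) (Z₀ := Z₀) (y := y) hg0 (fun C h1 h2 => (hCg C h1 h2).trans hyk)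
      (by linarith) (by linarith)
  -- the square root of `q`
  obtain ⟨q, hqdef⟩ : ∃ q : ℕ, q = p ^ a := ⟨_, rfl⟩
  rw [← hqdef] at hq ⊢
  have hq2 : 2 ≤ q := by
    have := Nat.one_lt_pow ha.ne' hp.one_lt
    omega
  have hs : √(q : ℝ) = z ^ M := by
    rw [hq, mul_comm, pow_mul]
    exact Real.sqrt_sq (by positivity)
  have hprimes := hZ₀ Z hZZ₀ (100 * g + 1) p hA2
  obtain ⟨N, hN⟩ : ∃ N : ℝ, N = (((range (Z + 1)).filter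
    fun ℓ => ℓ.Prime ∧ 100 * g + 1 ≤ ℓ ∧ ℓ ≠ p).card : ℝ) := ⟨_, rfl⟩
  rw [← hN] at hprimes
  obtain ⟨hNpos, hη⟩ := saving (g := g) (k := k) (Z := Z) hxy hx1 hg1' h2ρ hZy
    (by exact_mod_cast hZ3) hprimes
  have hNnat : 0 < ((range (Z + 1)).filter fun ℓ => ℓ.Prime ∧ 100 * g + 1 ≤ ℓ ∧ ℓ ≠ p).card := by
    rw [hN] at hNpos
    exact_mod_cast hNpos
  -- the count
  have hcover := hC q g k R (256 * (g : ℝ) ^ 6 / N + 3 * (2 ^ (g - k) * ρ))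
    {h : ℤ[X] | ∀ ℓ ∈ (range (Z + 1)).filter
        (fun ℓ => ℓ.Prime ∧ 100 * g + 1 ≤ ℓ ∧ ℓ ≠ p), ¬ Pattern q ℓ d₁ d₂ d₃
          (h.map (Int.castRingHom (ZMod ℓ)))} hq2 hg0 hkg hRnat
    (by rw [hs, hMk, ← hy]; exact hR1) (by positivity)
    (fun t u => by
      rw [hqdef, hN]
      exact cube_sieve hS hPa hp hadm1 (by omega) hg0 hρ0 hρ1 hZρ hNnat t u)
  have hred := hR q g hq2 hg0
  have hlow := hL p a g hp ha hg0
  have hsq : √((p : ℝ) ^ a) = √(q : ℝ) := by rw [hqdef]; push_cast; rfl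
  rw [hsq, ← hqdef] at hlow
  obtain ⟨U, hU⟩ : ∃ U : ℝ, U = √(q : ℝ) ^ (g * (g + 1) / 2) / √(g.factorial : ℝ) := ⟨_, rfl⟩
  have hfac : (0 : ℝ) < √(g.factorial : ℝ) := Real.sqrt_pos.2 (by exact_mod_cast g.factorial_pos)
  have hspos : 0 < √(q : ℝ) := by rw [hs]; positivity
  have hUpos : 0 < U := by rw [hU]; positivity
  obtain ⟨O, hO⟩ : ∃ O : ℝ, O = ((ordinary p q g).ncard : ℝ) := ⟨_, rfl⟩
  rw [← hO] at hlow ⊢
  have hppos : (0 : ℝ) < p := by exact_mod_cast hp.pos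
  have hO0 : 0 ≤ O := by rw [hO]; positivity
  have h1 : √(q : ℝ) ^ (g * (g + 1) / 2) / (p * 2000 ^ g * √(g.factorial : ℝ)) =
      U / (p * 2000 ^ g) := by
    rw [hU, div_div, mul_comm (√(g.factorial : ℝ))]
  rw [h1] at hlow
  have hOpos : 0 < O := lt_of_lt_of_le (by positivity) hlow
  have hUO : U ≤ z ^ (2 * M) * 2000 ^ g * O := by
    rw [div_le_iff₀ (by positivity)] at hlow
    refine hlow.trans ?_
    rw [mul_comm]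
    have h2 : (p : ℝ) ≤ z ^ (2 * M) := by
      rw [← hq, hqdef]
      exact_mod_cast Nat.le_self_pow ha.ne' p
    gcongr
  refine ⟨?_, hOpos⟩
  have hfin : (realWeil q g).Finite := realWeil_finite q
  have hexc : ((Exc Φ q g).ncard : ℝ) ≤
      (({h ∈ realWeil q g | ¬ Irreducible (h.map (Int.castRingHom ℚ))} : Set ℤ[X]).ncard : ℝ) +
      ((realWeil q g ∩ {h : ℤ[X] | ∀ ℓ ∈ (range (Z + 1)).filter
        (fun ℓ => ℓ.Prime ∧ 100 * g + 1 ≤ ℓ ∧ ℓ ≠ p), ¬ Pattern q ℓ d₁ d₂ d₃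
          (h.map (Int.castRingHom (ZMod ℓ)))}).ncard : ℝ) := by
    have hsub := exc_sub (Z := Z) hG hp ha hadm (by omega : 3 ≤ 100 * g + 1)
    rw [← hqdef] at hsub
    have h1 := (Set.ncard_le_ncard hsub ((hfin.subset fun h hh => hh.1).union
        (hfin.subset fun h hh => hh.1))).trans (Set.ncard_union_le _ _)
    exact_mod_cast h1
  refine hexc.trans ?_
  -- first term
  have t1 : (({h ∈ realWeil q g | ¬ Irreducible (h.map (Int.castRingHom ℚ))} : Set ℤ[X]).ncard : ℝ)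
      ≤ 1 / z ^ (300 * k) * O := by
    refine hred.trans ?_
    have e1 : (g : ℝ) * 300 ^ g * √(q : ℝ) ^ (g * (g + 1) / 2) /
        (√(q : ℝ) ^ (g - 1) * √(g.factorial : ℝ)) = (g : ℝ) * 300 ^ g / √(q : ℝ) ^ (g - 1) * U := by
      rw [hU, div_mul_div_comm]
    rw [e1, hs]
    exact term1 hz1 hO0 (hCg _ (by norm_num) (by norm_num)) hM2 hUpos.le hUO
  -- second term
  have t2 : ((realWeil q g ∩ {h : ℤ[X] | ∀ ℓ ∈ (range (Z + 1)).filter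
        (fun ℓ => ℓ.Prime ∧ 100 * g + 1 ≤ ℓ ∧ ℓ ≠ p), ¬ Pattern q ℓ d₁ d₂ d₃
          (h.map (Int.castRingHom (ZMod ℓ)))}).ncard : ℝ) ≤ 1 / z ^ (300 * k) * O := by
    refine hcover.trans ?_
    have e1 : (200 : ℝ) ^ g * √(q : ℝ) ^ (g * (g + 1) / 2) / √(g.factorial : ℝ) =
        200 ^ g * U := by
      rw [hU, mul_div_assoc]
    rw [e1]
    refine le_trans (mul_le_mul_of_nonneg_right hη (by positivity)) ?_
    rw [hx]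
    exact term2 hz1 hg0 hO0 (hCg _ (by norm_num) (by norm_num)) hM1 hUpos.le hUO
  have hfinal : (2 : ℝ) / z ^ (300 * k) * O = 1 / z ^ (300 * k) * O + 1 / z ^ (300 * k) * O := by
    ring
  rw [hfinal]
  exact add_le_add t1 t2


end Pool.Agent.Work.FY
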