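import Pool.Agent.Work.MP_223b32_FF.Interface
import Pool.Agent.Work.MP_223b32_FF.GAL
import Pool.Agent.Work.MP_223b32_t3.Defs

/-!
Interface of the relative version of the project fixed finite field, dimension to infinity
(MP_223b32_ag). See BLUEPRINT.md for the paper proof of each block.
-/

namespace Pool.Agent.Work.FY

open Polynomial Finset TensorProduct Pool.Agent.Work.MP_223b32_ag
open Pool.Agent.Work.MP_223b32_ag_56 Pool.Agent.Work.FF Pool.Agent.Work.T3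

/-- Some power of `z` is, up to a power of `q`, a product of `q`-Weil numbers of degree less than
`2 g`. -/
def Small (q g : ℕ) (z : ℂ) : Prop :=
  ∃ M k : ℕ, 0 < M ∧ ∃ t : Multiset ℂ, (∀ γ ∈ t, ∃ a, γ ∈ weil q a (2 * g - 1)) ∧
    z ^ M * (q : ℂ) ^ k = t.prod

/-- The abelian varieties with real Weil polynomial `h`, of degree `g`, are independent of all the
varieties `Y` over `F_q` whose Frobenius eigenvalues are `Small q g`. Here `V` is the `H¹` of a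
product `X` of such abelian varieties and `Φ` its Frobenius endomorphism, `H = H^a(Y)` and `φ` its
Frobenius endomorphism, and `n` is the degree of an extension of `F_q`. -/
def TateRel (q : ℕ) (h : ℤ[X]) : Prop :=
  ∀ (V : Type) [AddCommGroup V] [Module ℂ V] [Module.Finite ℂ V] (Φ : Module.End ℂ V),
    Φ.IsSemisimple → (∀ μ, Φ.HasEigenvalue μ → IsWeilRoot q h μ) →
  ∀ (H : Type) [AddCommGroup H] [Module ℂ H] [Module.Finite ℂ H] (φ : Module.End ℂ H),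
    (∀ z, φ.HasEigenvalue z → Small q h.natDegree z) →
  ∀ a b n : ℕ, 0 < n → Indep (φ ^ n) (Φ ^ n) ((q : ℝ) ^ n) a b

/-- The exceptions. -/
def exceptional (q g g₀ : ℕ) : Set ℤ[X] :=
  {h ∈ realWeil q g | ¬ (TateProperty q h ∧ (g₀ ≤ g → TateRel q h))}

/-- The stronger admissibility condition. -/
def Adm2 (g k d₁ d₂ d₃ : ℕ) : Prop :=
  FF.Adm g k d₁ d₂ d₃ ∧ Nat.Coprime d₁ d₂ ∧ Nat.Coprime d₁ g ∧ 8 * (d₂ + d₃) ≤ g

/-- LEG (Legendre's sieve): one forbidden residue class for each of a few primes. -/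
def Stmt_LEG : Prop :=
  ∀ (S : Finset ℕ) (Bad : ℕ → ℕ → Prop), (∀ p ∈ S, p.Prime) →
    (∀ p ∈ S, ∃ r, ∀ v, Bad p v → v ≡ r [MOD p]) →
    ∀ x N : ℕ, 2 ^ S.card * (S.card + 1) < N → ∃ v, x ≤ v ∧ v < x + N ∧ ∀ p ∈ S, ¬ Bad p v

/-- ARI (from LEG): admissible degrees exist. -/
def Stmt_ARI : Prop :=
  ∃ G : ℕ, ∀ g, G ≤ g → ∃ k d₁ d₂ d₃ : ℕ, Adm2 g k d₁ d₂ d₃ ∧ g ≤ 1000 * k

/-- BOCH (Bochert): a doubly transitive group with a nontrivial element which moves at most an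
eighth of the points contains the alternating group. -/
def Stmt_BOCH : Prop :=
  ∀ (X : Type) [Fintype X] [DecidableEq X] (H : Subgroup (Equiv.Perm X)),
    (∀ a b c d : X, a ≠ b → c ≠ d → ∃ σ ∈ H, σ a = c ∧ σ b = d) →
    (∃ σ ∈ H, σ ≠ 1 ∧ 8 * σ.support.card ≤ Fintype.card X) → alternatingGroup X ≤ H

/-- TWO (Jordan): double transitivity from a cycle. -/
def Stmt_TWO : Prop :=
  ∀ (X : Type) [Fintype X] [DecidableEq X] (H : Subgroup (Equiv.Perm X)),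
    (∀ a b : X, ∃ σ ∈ H, σ a = b) → ∀ c ∈ H, ∀ C : Finset X,
    (∀ x ∉ C, c x = x) → (∀ x ∈ C, ∀ y ∈ C, ∃ n : ℕ, (c ^ n) x = y) →
    Nat.Coprime C.card (Fintype.card X) → Fintype.card X < 2 * C.card →
    C.card + 2 ≤ Fintype.card X →
    ∀ a b c d : X, a ≠ b → c ≠ d → ∃ σ ∈ H, σ a = c ∧ σ b = d

/-- PERM (from TWO, BOCH). -/
def Stmt_PERM : Prop :=
  ∀ (X : Type) [Fintype X] [DecidableEq X] (H : Subgroup (Equiv.Perm X)),
    (∀ a b : X, ∃ σ ∈ H, σ a = b) → ∀ σ ∈ H, ∀ C₁ C₂ C₃ : Finset X,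
    (∀ x, x ∈ C₁ ∨ x ∈ C₂ ∨ x ∈ C₃) → Disjoint C₁ C₂ → Disjoint C₁ C₃ → Disjoint C₂ C₃ →
    (∀ x ∈ C₁, σ x ∈ C₁) → (∀ x ∈ C₂, σ x ∈ C₂) → (∀ x ∈ C₃, σ x ∈ C₃) →
    (∀ x ∈ C₁, ∀ y ∈ C₁, ∃ n : ℕ, (σ ^ n) x = y) →
    (∀ x ∈ C₂, ∀ y ∈ C₂, ∃ n : ℕ, (σ ^ n) x = y) →
    (∀ x ∈ C₃, ∀ y ∈ C₃, ∃ n : ℕ, (σ ^ n) x = y) →
    Nat.Coprime C₁.card C₂.card → Nat.Coprime C₁.card C₃.card →
    Nat.Coprime C₁.card (Fintype.card X) → 3 ≤ C₂.card → 3 ≤ C₃.card →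
    8 * (C₂.card + C₃.card) ≤ Fintype.card X → alternatingGroup X ≤ H

/-- GRP: a group with an alternating quotient of degree `n` on `X` and normal subgroups `N i` such
that `G / N i` is an extension of a group of permutations of less than `n` letters by a group of
exponent two: the intersection of the `N i` acts nontrivially on `X`. -/
def Stmt_GRP : Prop :=
  ∀ (G X : Type) [Group G] [Finite G] [Fintype X] [DecidableEq X] (φ : G →* Equiv.Perm X),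
    5 ≤ Fintype.card X → alternatingGroup X ≤ φ.range →
    ∀ (I : Type) (S : Finset I) (N : I → Subgroup G), (∀ i ∈ S, (N i).Normal ∧
      ∃ (m : ℕ) (ψ : G →* Equiv.Perm (Fin m)), m < Fintype.card X ∧
        ∀ σ, ψ σ = 1 → σ ^ 2 ∈ N i) →
    ∀ x : X, ∃ τ : G, (∀ i ∈ S, τ ∈ N i) ∧ φ τ x ≠ x

/-- All 3-cycles of roots of `h` come from the Galois group. -/
def ThreeCycles (h : ℤ[X]) : Prop :=
  ∀ (L : Type) [Field L] [NumberField L] [IsGalois ℚ L], (h.map (Int.castRingHom L)).Splits →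
    ∀ a b c : L, aeval a h = 0 → aeval b h = 0 → aeval c h = 0 → a ≠ b → b ≠ c → a ≠ c →
      ∃ τ : Gal(L/ℚ), τ a = b ∧ τ b = c ∧ τ c = a ∧
        ∀ r : L, aeval r h = 0 → r ≠ a → r ≠ b → r ≠ c → τ r = r

/-- The sign characters separate the roots. -/
def SepAll (q : ℕ) (h : ℤ[X]) : Prop :=
  ∀ (L : Type) [Field L] [NumberField L] [IsGalois ℚ L], (h.map (Int.castRingHom L)).Splits →
    (∀ x : L, aeval x h = 0 → ∃ y : L, y ≠ 0 ∧ y + q / y = x) → GALAux.Sep L q h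

/-- ALT (from FROB, PERM). -/
def Stmt_ALT : Prop :=
  ∀ (q ℓ g k d₁ d₂ d₃ : ℕ) [Fact ℓ.Prime] (h : ℤ[X]), ℓ ≠ 2 → (q : ZMod ℓ) ≠ 0 →
    Adm2 g k d₁ d₂ d₃ → h.Monic → h.natDegree = g → Irreducible (h.map (Int.castRingHom ℚ)) →
    Pattern q ℓ d₁ d₂ d₃ (h.map (Int.castRingHom (ZMod ℓ))) → ThreeCycles h

/-- REL (uses GALAux.relation): a flip of `x` over all the other data gives balance at `x`. -/
def Stmt_REL : Prop :=
  ∀ (L : Type) [Field L] [NumberField L] [IsGalois ℚ L] [DecidableEq L] (q : ℕ) (h : ℤ[X]),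
    q ≠ 0 → h.Monic → Irreducible (h.map (Int.castRingHom ℚ)) → 2 ≤ h.natDegree →
    (h.map (Int.castRingHom L)).Splits →
    (∀ x : L, aeval x h = 0 → ∃ y : L, y ≠ 0 ∧ y + q / y = x) → GALAux.Sep L q h →
    ∀ (τ : Gal(L/ℚ)) (x : L), (∀ z : L, aeval z h = 0 → τ z = z) → x ≠ 0 →
    aeval (x + q / x) h = 0 → τ x = q / x → x ≠ q / x →
    ∀ s : Multiset L, (∀ z ∈ s, z ≠ 0 ∧ aeval (z + q / z) h = 0) → ∀ n : ℕ, 0 < n →
      (s.prod / τ s.prod) ^ n = 1 → s.count (q / x) = s.count x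

/-- OVER (from GRP): flips over finitely many fields of small degree. -/
def Stmt_OVER : Prop :=
  ∀ (L : Type) [Field L] [NumberField L] [IsGalois ℚ L] (q : ℕ) (h : ℤ[X]),
    q ≠ 0 → h.Monic → Irreducible (h.map (Int.castRingHom ℚ)) → 5 ≤ h.natDegree →
    (h.map (Int.castRingHom L)).Splits →
    (∀ x : L, aeval x h = 0 → ∃ y : L, y ≠ 0 ∧ y + q / y = x) → GALAux.Sep L q h →
    ThreeCycles h →
    ∀ Ps : Finset ℤ[X], (∀ P ∈ Ps, P.Monic ∧ P.natDegree < 2 * h.natDegree ∧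
      (P.map (Int.castRingHom L)).Splits ∧
      ∃ a : ℕ, ∀ z : ℂ, aeval z P = 0 → ‖z‖ ^ 2 = (q : ℝ) ^ a) →
    ∀ x : L, x ≠ 0 → aeval (x + q / x) h = 0 →
      ∃ τ : Gal(L/ℚ), (∀ P ∈ Ps, ∀ z : L, aeval z P = 0 → τ z = z) ∧
        (∀ z : L, aeval z h = 0 → τ z = z) ∧ τ x = q / x ∧ x ≠ q / x

/-- Balance of the multiplicative relations, also with products of Weil numbers of small degree. -/
def RelCount (q : ℕ) (h : ℤ[X]) : Prop :=
  ∀ t : Multiset ℂ, (∀ γ ∈ t, ∃ a, γ ∈ weil q a (2 * h.natDegree - 1)) →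
  ∀ s : Multiset ℂ, (∀ z ∈ s, IsWeilRoot q h z) → ∀ n m : ℕ, 0 < n →
    t.prod * s.prod ^ n = (q : ℂ) ^ m → ∀ z, IsWeilRoot q h z → s.count ((q : ℂ) / z) = s.count z

/-- CNT (from REL, OVER). -/
def Stmt_CNT : Prop :=
  ∀ (q : ℕ) (h : ℤ[X]), 1 < q → h.Monic → Irreducible (h.map (Int.castRingHom ℚ)) →
    5 ≤ h.natDegree → SepAll q h → ThreeCycles h → RelCount q h

/-- FLX (from TC.Stmt_FLA): the linear algebra. -/
def Stmt_FLX : Prop :=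
  ∀ (q : ℕ) (h : ℤ[X]), 1 < q → (∀ z : ℂ, IsWeilRoot q h z → z ^ 2 ≠ q) → RelCount q h →
    TateRel q h

/-- GALR (from SEP, ALT, CNT, FLX). -/
def Stmt_GALR : Prop :=
  ∀ (q ℓ g k d₁ d₂ d₃ : ℕ) [Fact ℓ.Prime] (h : ℤ[X]), 1 < q → ℓ ≠ 2 → (q : ZMod ℓ) ≠ 0 →
    Adm2 g k d₁ d₂ d₃ → h.Monic → h.natDegree = g → Irreducible (h.map (Int.castRingHom ℚ)) →
    Pattern q ℓ d₁ d₂ d₃ (h.map (Int.castRingHom (ZMod ℓ))) → TateRel q h

/-- FINAL (from the blocks of the project FF and ARI, GALR). -/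
def Stmt_FIN : Prop :=
  ∃ c > (0 : ℝ), ∃ Q₀ g₀ : ℕ, ∀ p a : ℕ, p.Prime → 0 < a → Q₀ ≤ p ^ a → ∀ g : ℕ, 1 ≤ g →
    (0 : ℝ) < (ordinary p (p ^ a) g).ncard ∧
    ((exceptional (p ^ a) g g₀).ncard : ℝ) ≤
      ((p : ℝ) ^ a) ^ (-(c * g)) * ((ordinary p (p ^ a) g).ncard : ℝ)

end Pool.Agent.Work.FY
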