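import Pool.Agent.Work.MP_223b32_FY.Interface

/-!
Interface, second part: tuples of abelian varieties of the same dimension. See BLUEPRINT2.md.
-/

namespace Pool.Agent.Work.FY

open Polynomial Finset TensorProduct Pool.Agent.Work.MP_223b32_ag
open Pool.Agent.Work.MP_223b32_ag_56 Pool.Agent.Work.FF Pool.Agent.Work.T3

/-- The abelian varieties `A_1, …, A_r` over `F_q` with real Weil polynomials `h i`, of degree `g`,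
are independent of each other and of all the varieties `Y` over `F_q` whose Frobenius eigenvalues are
`Small q g`. Here `V` is the `H¹` of a product `X` of powers of the `A_i` and `Φ` its Frobenius
endomorphism, `H = H^a(Y)` and `φ` its Frobenius endomorphism, and `n` is the degree of an extension
of `F_q`. -/
def TateRelT {r : ℕ} (q g : ℕ) (h : Fin r → ℤ[X]) : Prop :=
  ∀ (V : Type) [AddCommGroup V] [Module ℂ V] [Module.Finite ℂ V] (Φ : Module.End ℂ V),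
    Φ.IsSemisimple → (∀ μ, Φ.HasEigenvalue μ → ∃ i, IsWeilRoot q (h i) μ) →
  ∀ (H : Type) [AddCommGroup H] [Module ℂ H] [Module.Finite ℂ H] (φ : Module.End ℂ H),
    (∀ z, φ.HasEigenvalue z → Small q g z) →
  ∀ a b n : ℕ, 0 < n → Indep (φ ^ n) (Φ ^ n) ((q : ℝ) ^ n) a b

/-- The exceptional tuples of elements of `I`. -/
def exceptionalT (q g r : ℕ) (I : Set ℤ[X]) : Set (Fin r → ℤ[X]) :=
  {h | (∀ i, h i ∈ I) ∧ ¬ TateRelT q g h}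

/-- The orders of two elements with three cycles each: the first one does not divide twice the
second one. -/
def Sepd (d₁ d₂ d₃ e₁ e₂ e₃ : ℕ) : Prop :=
  ¬ Nat.lcm d₁ (Nat.lcm d₂ d₃) ∣ 2 * Nat.lcm e₁ (Nat.lcm e₂ e₃)

/-- FROBJ (copy of FF.Stmt_FROB with the same element for all polynomials): helper56. -/
def Stmt_FROBJ : Prop :=
  ∀ (L : Type) [Field L] [NumberField L] [IsGalois ℚ L] (ℓ : ℕ) [Fact ℓ.Prime], ℓ ≠ 2 →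
    ∃ σ : Gal(L/ℚ), ∀ (q g k d₁ d₂ d₃ : ℕ) (h : ℤ[X]), (q : ZMod ℓ) ≠ 0 →
    FF.Adm g k d₁ d₂ d₃ → h.Monic → h.natDegree = g → (h.map (Int.castRingHom L)).Splits →
    Pattern q ℓ d₁ d₂ d₃ (h.map (Int.castRingHom (ZMod ℓ))) →
    ∃ C₁ C₂ C₃ : Finset L, (∀ x : L, aeval x h = 0 ↔ x ∈ C₁ ∨ x ∈ C₂ ∨ x ∈ C₃) ∧
      Disjoint C₁ C₂ ∧ Disjoint C₁ C₃ ∧ Disjoint C₂ C₃ ∧
      C₁.card = d₁ ∧ C₂.card = d₂ ∧ C₃.card = d₃ ∧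
      (∀ x ∈ C₁, ∀ y ∈ C₁, ∃ n : ℕ, (σ ^ n) x = y) ∧
      (∀ x ∈ C₂, ∀ y ∈ C₂, ∃ n : ℕ, (σ ^ n) x = y) ∧
      (∀ x ∈ C₃, ∀ y ∈ C₃, ∃ n : ℕ, (σ ^ n) x = y) ∧
      (∀ x ∈ C₁, σ x ∈ C₁) ∧ (∀ x ∈ C₂, σ x ∈ C₂) ∧ (∀ x ∈ C₃, σ x ∈ C₃)

/-- An automorphism which fixes everything above the roots of `h'` and moves a root of `h`. -/
def ApartIn (L : Type) [Field L] [NumberField L] (q : ℕ) (h h' : ℤ[X]) : Prop :=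
  ∃ σ : Gal(L/ℚ), (∀ y : L, y ≠ 0 → aeval (y + q / y) h' = 0 → σ y = y) ∧
    ∃ x : L, aeval x h = 0 ∧ σ x ≠ x

/-- PAIR (from FROBJ). -/
def Stmt_PAIR : Prop :=
  ∀ (L : Type) [Field L] [NumberField L] [IsGalois ℚ L] (q ℓ g k d₁ d₂ d₃ k' e₁ e₂ e₃ : ℕ)
    [Fact ℓ.Prime] (h h' : ℤ[X]), q ≠ 0 → ℓ ≠ 2 → (q : ZMod ℓ) ≠ 0 → FF.Adm g k d₁ d₂ d₃ →
    FF.Adm g k' e₁ e₂ e₃ → h.Monic → h.natDegree = g → h'.Monic → h'.natDegree = g →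
    (h.map (Int.castRingHom L)).Splits → (h'.map (Int.castRingHom L)).Splits →
    Pattern q ℓ d₁ d₂ d₃ (h.map (Int.castRingHom (ZMod ℓ))) →
    Pattern q ℓ e₁ e₂ e₃ (h'.map (Int.castRingHom (ZMod ℓ))) →
    (Sepd d₁ d₂ d₃ e₁ e₂ e₃ → ApartIn L q h h') ∧ (Sepd e₁ e₂ e₃ d₁ d₂ d₃ → ApartIn L q h' h)

/-- ARI2 (from LEG): two triples of admissible degrees. -/
def Stmt_ARI2 : Prop :=
  ∃ G : ℕ, ∀ g, G ≤ g → ∃ k d₁ d₂ d₃ k' e₁ e₂ e₃ : ℕ, Adm2 g k d₁ d₂ d₃ ∧ Adm2 g k' e₁ e₂ e₃ ∧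
    g ≤ 1000 * k ∧ g ≤ 1000 * k' ∧ Sepd d₁ d₂ d₃ e₁ e₂ e₃ ∧ Sepd e₁ e₂ e₃ d₁ d₂ d₃

/-- GRP2: the intersection of normal subgroups which act nontrivially acts nontrivially. -/
def Stmt_GRP2 : Prop :=
  ∀ (G X : Type) [Group G] [Finite G] [Fintype X] [DecidableEq X] (φ : G →* Equiv.Perm X),
    5 ≤ Fintype.card X → alternatingGroup X ≤ φ.range →
    ∀ (I : Type) (S : Finset I) (N : I → Subgroup G), (∀ i ∈ S, (N i).Normal ∧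
      ∃ σ ∈ N i, φ σ ≠ 1) → ∀ x : X, ∃ τ : G, (∀ i ∈ S, τ ∈ N i) ∧ φ τ x ≠ x

/-- OVER2 (from GRP, GRP2): flips over finitely many fields. -/
def Stmt_OVER2 : Prop :=
  ∀ (L : Type) [Field L] [NumberField L] [IsGalois ℚ L] (q : ℕ) (h : ℤ[X]),
    q ≠ 0 → h.Monic → Irreducible (h.map (Int.castRingHom ℚ)) → 5 ≤ h.natDegree →
    (h.map (Int.castRingHom L)).Splits →
    (∀ x : L, aeval x h = 0 → ∃ y : L, y ≠ 0 ∧ y + q / y = x) → GALAux.Sep L q h →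
    ThreeCycles h →
    ∀ Ps : Finset ℤ[X], (∀ P ∈ Ps, P.Monic ∧ P.natDegree < 2 * h.natDegree ∧
      (P.map (Int.castRingHom L)).Splits ∧
      ∃ a : ℕ, ∀ z : ℂ, aeval z P = 0 → ‖z‖ ^ 2 = (q : ℝ) ^ a) →
    ∀ Hs : Finset ℤ[X], (∀ h' ∈ Hs, ApartIn L q h h') →
    ∀ x : L, x ≠ 0 → aeval (x + q / x) h = 0 →
      ∃ τ : Gal(L/ℚ), (∀ P ∈ Ps, ∀ z : L, aeval z P = 0 → τ z = z) ∧
        (∀ h' ∈ Hs, ∀ y : L, y ≠ 0 → aeval (y + q / y) h' = 0 → τ y = y) ∧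
        (∀ z : L, aeval z h = 0 → τ z = z) ∧ τ x = q / x ∧ x ≠ q / x

/-- Balance of the multiplicative relations between the numbers with `P` and Weil numbers of small
degree. -/
def RelCountP (q g : ℕ) (P : ℂ → Prop) : Prop :=
  ∀ t : Multiset ℂ, (∀ γ ∈ t, ∃ a, γ ∈ weil q a (2 * g - 1)) →
  ∀ s : Multiset ℂ, (∀ z ∈ s, P z) → ∀ n m : ℕ, 0 < n →
    t.prod * s.prod ^ n = (q : ℂ) ^ m → ∀ z, P z → s.count ((q : ℂ) / z) = s.count z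

/-- CNT2 (from REL, OVER2): helper56. -/
def Stmt_CNT2 : Prop :=
  ∀ (q g r : ℕ) (h : Fin r → ℤ[X]), 1 < q → 5 ≤ g → (∀ i, (h i).Monic ∧ (h i).natDegree = g ∧
      Irreducible ((h i).map (Int.castRingHom ℚ)) ∧ SepAll q (h i) ∧ ThreeCycles (h i)) →
    (∀ (L : Type) [Field L] [NumberField L] [IsGalois ℚ L],
      (∀ i, ((h i).map (Int.castRingHom L)).Splits) → ∀ i j, i ≠ j → ApartIn L q (h i) (h j)) →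
    RelCountP q g (fun z => ∃ i, IsWeilRoot q (h i) z)

/-- FLXP (from TC.Stmt_FLA): the linear algebra: helper56. -/
def Stmt_FLXP : Prop :=
  ∀ (q g : ℕ) (P : ℂ → Prop), 1 < q → (∀ z, P z → z ≠ 0 ∧ z ^ 2 ≠ q) → RelCountP q g P →
  ∀ (V : Type) [AddCommGroup V] [Module ℂ V] [Module.Finite ℂ V] (Φ : Module.End ℂ V),
    Φ.IsSemisimple → (∀ μ, Φ.HasEigenvalue μ → P μ) →
  ∀ (H : Type) [AddCommGroup H] [Module ℂ H] [Module.Finite ℂ H] (φ : Module.End ℂ H),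
    (∀ z, φ.HasEigenvalue z → Small q g z) →
  ∀ a b n : ℕ, 0 < n → Indep (φ ^ n) (Φ ^ n) ((q : ℝ) ^ n) a b

/-- The polynomial has the pattern for a suitable prime. -/
def HasPat (q d₁ d₂ d₃ : ℕ) (h : ℤ[X]) : Prop :=
  ∃ ℓ : ℕ, ∃ _ : Fact ℓ.Prime, ℓ ≠ 2 ∧ (q : ZMod ℓ) ≠ 0 ∧
    Pattern q ℓ d₁ d₂ d₃ (h.map (Int.castRingHom (ZMod ℓ)))

/-- The two polynomials have the two patterns for the same suitable prime. -/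
def HasPat2 (q d₁ d₂ d₃ e₁ e₂ e₃ : ℕ) (h h' : ℤ[X]) : Prop :=
  ∃ ℓ : ℕ, ∃ _ : Fact ℓ.Prime, ℓ ≠ 2 ∧ (q : ZMod ℓ) ≠ 0 ∧
    Pattern q ℓ d₁ d₂ d₃ (h.map (Int.castRingHom (ZMod ℓ))) ∧
    Pattern q ℓ e₁ e₂ e₃ (h'.map (Int.castRingHom (ZMod ℓ)))

/-- JOIN (from SEP, ALT, PAIR, CNT2, FLXP). -/
def Stmt_JOIN : Prop :=
  ∀ (q g k d₁ d₂ d₃ k' e₁ e₂ e₃ r : ℕ) (h : Fin r → ℤ[X]), 1 < q → Adm2 g k d₁ d₂ d₃ →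
    Adm2 g k' e₁ e₂ e₃ → Sepd d₁ d₂ d₃ e₁ e₂ e₃ → Sepd e₁ e₂ e₃ d₁ d₂ d₃ →
    (∀ i, (h i).Monic ∧ (h i).natDegree = g ∧ Irreducible ((h i).map (Int.castRingHom ℚ)) ∧
      HasPat q d₁ d₂ d₃ (h i)) →
    (∀ i j, i < j → HasPat2 q d₁ d₂ d₃ e₁ e₂ e₃ (h i) (h j)) → TateRelT q g h

/-- COVK (from UPPER, CUBE; the proof of FF.stmt_COVER): few cubes contain all the real Weil
polynomials. -/
def Stmt_COVK : Prop :=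
  ∀ (q g k R : ℕ), 2 ≤ q → 1 ≤ g → k ≤ g → 1 ≤ R → (R : ℝ) * 300 ^ g ≤ √(q : ℝ) ^ k →
    ∃ K : Finset ((Fin g → ℤ) × (Fin (g - k) → ℤ)),
      (K.card : ℝ) * (R : ℝ) ^ (g - k) ≤
        200 ^ g * √(q : ℝ) ^ (g * (g + 1) / 2) / √(g.factorial : ℝ) ∧
      ∀ h ∈ realWeil q g, ∃ κ ∈ K, ∃ c : Fin (g - k) → ℤ,
        (∀ i, κ.2 i ≤ c i ∧ c i < κ.2 i + R) ∧ mk (glue c κ.1) = h

/-- COVER2 (from COVK): a set of pairs which is sparse in all products of cubes. -/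
def Stmt_COVER2 : Prop :=
  ∀ (q g k k' R : ℕ) (η : ℝ) (B : Set (ℤ[X] × ℤ[X])), 2 ≤ q → 1 ≤ g → k ≤ g → k' ≤ g → 1 ≤ R →
    (R : ℝ) * 300 ^ g ≤ √(q : ℝ) ^ k → (R : ℝ) * 300 ^ g ≤ √(q : ℝ) ^ k' → 0 ≤ η →
    (∀ (t t' : Fin g → ℤ) (u : Fin (g - k) → ℤ) (u' : Fin (g - k') → ℤ),
      ({c : (Fin (g - k) → ℤ) × (Fin (g - k') → ℤ) | (∀ i, u i ≤ c.1 i ∧ c.1 i < u i + R) ∧
        (∀ i, u' i ≤ c.2 i ∧ c.2 i < u' i + R) ∧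
        (mk (glue c.1 t), mk (glue c.2 t')) ∈ B}.ncard : ℝ) ≤
        η * (R : ℝ) ^ ((g - k) + (g - k'))) →
    (((realWeil q g ×ˢ realWeil q g) ∩ B).ncard : ℝ) ≤
      η * (200 ^ g * √(q : ℝ) ^ (g * (g + 1) / 2) / √(g.factorial : ℝ)) ^ 2

/-- The pairs without a good prime up to `Z`. -/
def BadPair (q A Z p d₁ d₂ d₃ e₁ e₂ e₃ : ℕ) : Set (ℤ[X] × ℤ[X]) :=
  {h | ∀ ℓ ∈ (range (Z + 1)).filter (fun ℓ => ℓ.Prime ∧ A ≤ ℓ ∧ ℓ ≠ p),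
    ¬ (Pattern q ℓ d₁ d₂ d₃ (h.1.map (Int.castRingHom (ZMod ℓ))) ∧
      Pattern q ℓ e₁ e₂ e₃ (h.2.map (Int.castRingHom (ZMod ℓ))))}

/-- CUBE2 (from CSIEVE, PATT): the sieve in a product of two cubes. -/
def Stmt_CUBE2 : Prop :=
  ∀ (p a g k d₁ d₂ d₃ k' e₁ e₂ e₃ A Z R : ℕ) (ρ : ℝ), p.Prime → FF.Adm g k d₁ d₂ d₃ →
    FF.Adm g k' e₁ e₂ e₃ → 100 * g < A → 1 ≤ g → 0 ≤ ρ → ρ ≤ 1 → (Z : ℝ) ^ 2 ≤ ρ * R →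
    0 < ((range (Z + 1)).filter fun ℓ => ℓ.Prime ∧ A ≤ ℓ ∧ ℓ ≠ p).card →
    ∀ (t t' : Fin g → ℤ) (u : Fin (g - k) → ℤ) (u' : Fin (g - k') → ℤ),
      ({c : (Fin (g - k) → ℤ) × (Fin (g - k') → ℤ) | (∀ i, u i ≤ c.1 i ∧ c.1 i < u i + R) ∧
        (∀ i, u' i ≤ c.2 i ∧ c.2 i < u' i + R) ∧ (mk (glue c.1 t), mk (glue c.2 t')) ∈
          BadPair (p ^ a) A Z p d₁ d₂ d₃ e₁ e₂ e₃}.ncard : ℝ) ≤
      (65536 * (g : ℝ) ^ 12 /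
          (((range (Z + 1)).filter fun ℓ => ℓ.Prime ∧ A ≤ ℓ ∧ ℓ ≠ p).card : ℝ) +
        3 * (2 ^ ((g - k) + (g - k')) * ρ)) * (R : ℝ) ^ ((g - k) + (g - k'))

/-- LARGE2 (from COVER2, CUBE2, PRIMES, LOWER): few pairs without a common prime. -/
def Stmt_LARGE2 : Prop :=
  ∃ c > (0 : ℝ), ∃ G Q₀ : ℕ, ∀ p a : ℕ, p.Prime → 0 < a → Q₀ ≤ p ^ a → ∀ g : ℕ, G ≤ g →
    ∀ k d₁ d₂ d₃ k' e₁ e₂ e₃ : ℕ, FF.Adm g k d₁ d₂ d₃ → FF.Adm g k' e₁ e₂ e₃ →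
    g ≤ 1000 * k → g ≤ 1000 * k' →
    (((realWeil (p ^ a) g ×ˢ realWeil (p ^ a) g) ∩
      {h : ℤ[X] × ℤ[X] | ¬ HasPat2 (p ^ a) d₁ d₂ d₃ e₁ e₂ e₃ h.1 h.2}).ncard : ℝ) ≤
      ((p : ℝ) ^ a) ^ (-(c * g)) * ((ordinary p (p ^ a) g).ncard : ℝ) ^ 2

/-- LARGE1 (from COVER, CSIEVE, PRIMES, PATT, LOWER, RED; adapted from FF.FINALc): few reducible
polynomials or polynomials without a good prime. -/
def Stmt_LARGE1 : Prop :=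
  ∃ c > (0 : ℝ), ∃ G Q₀ : ℕ, ∀ p a : ℕ, p.Prime → 0 < a → Q₀ ≤ p ^ a → ∀ g : ℕ, G ≤ g →
    ∀ k d₁ d₂ d₃ : ℕ, FF.Adm g k d₁ d₂ d₃ → g ≤ 1000 * k →
    (({h ∈ realWeil (p ^ a) g | ¬ (Irreducible (h.map (Int.castRingHom ℚ)) ∧
      HasPat (p ^ a) d₁ d₂ d₃ h)} : Set ℤ[X]).ncard : ℝ) ≤
      ((p : ℝ) ^ a) ^ (-(c * g)) * ((ordinary p (p ^ a) g).ncard : ℝ)

/-- TUP (from LARGE1, LARGE2, ARI2, JOIN): the union bound. -/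
def Stmt_TUP : Prop :=
  ∃ c > (0 : ℝ), ∃ Q₀ g₀ : ℕ, ∀ p a : ℕ, p.Prime → 0 < a → Q₀ ≤ p ^ a → ∀ g : ℕ, g₀ ≤ g →
    ∀ I : Set ℤ[X], ordinary p (p ^ a) g ⊆ I → I ⊆ realWeil (p ^ a) g → ∀ r : ℕ, 1 ≤ r →
      ((exceptionalT (p ^ a) g r I).ncard : ℝ) ≤
        r ^ 2 * ((p : ℝ) ^ a) ^ (-(c * g)) * (I.ncard : ℝ) ^ r

end Pool.Agent.Work.FY
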